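import Mathlib

set_option autoImplicit false
set_option linter.unusedSectionVars false

open Set MeasureTheory Pointwise
open scoped ENNReal

namespace Pool.Agent.Lib.MP_c8b24c_co

/-! ### One dimensional lemma -/

lemma volume_Icc_add {J : Set ℝ} (hJ : IsCompact J) (hc : Convex ℝ J) (hne : J.Nonempty) {t : ℝ}
    (ht : 0 ≤ t) : volume (Icc 0 t + J) = volume J + ENNReal.ofReal t := by
  have hconn : IsConnected J := ⟨hne, hc.isPreconnected⟩
  have h := eq_Icc_of_connected_compact hconn hJ
  set a := sInf J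
  set b := sSup J
  have hab : a ≤ b := by
    obtain ⟨x, hx⟩ := hne
    rw [h] at hx
    exact hx.1.trans hx.2
  have h1 : Icc 0 t + J = Icc a (t + b) := by
    rw [h, Icc_add_Icc ht hab, zero_add]
  rw [h1, h, Real.volume_Icc, Real.volume_Icc, ← ENNReal.ofReal_add (by linarith) ht]
  congr 1
  ring

/-! ### Fibres -/

variable {G : Type*} [NormedAddCommGroup G] [NormedSpace ℝ G] [MeasurableSpace G] [BorelSpace G]
  [SecondCountableTopology G]

section general

variable {X : Type*} [NormedAddCommGroup X] [NormedSpace ℝ X] [MeasurableSpace X] [BorelSpace X]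
  [SecondCountableTopology X]

/-- The fibre of `K ⊆ X × G` over `g`. -/
def fib (K : Set (X × G)) (g : G) : Set X := {x | (x, g) ∈ K}

lemma fib_compact {K : Set (X × G)} (hK : IsCompact K) (g : G) : IsCompact (fib K g) := by
  have h : fib K g = Prod.fst '' (K ∩ (univ ×ˢ {g})) := by
    ext x
    simp only [fib, mem_ofPred_eq, mem_image, mem_inter_iff, mem_prod, mem_univ, true_and,
      mem_singleton_iff, Prod.exists, exists_and_right, exists_eq_right]
  rw [h]
  exact (hK.inter_right (isClosed_univ.prod isClosed_singleton)).image continuous_fst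

lemma fib_convex {K : Set (X × G)} (hK : Convex ℝ K) (g : G) : Convex ℝ (fib K g) := by
  intro x hx y hy a b ha hb hab
  have := hK hx hy ha hb hab
  have e : a • (x, g) + b • (y, g) = (a • x + b • y, g) := by
    ext <;> simp [← add_smul, hab]
  rw [e] at this
  exact this

lemma fib_add (A : Set X) (K : Set (X × G)) (g : G) :
    fib (A ×ˢ {0} + K) g = A + fib K g := by
  ext x
  simp only [fib, mem_ofPred_eq, mem_add, mem_prod, mem_singleton_iff]
  constructor
  · rintro ⟨⟨a, z⟩, ⟨ha, hz⟩, ⟨y, g'⟩, hy, h⟩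
    simp only at hz
    subst hz
    simp only [Prod.mk_add_mk, zero_add, Prod.mk.injEq] at h
    obtain ⟨h1, rfl⟩ := h
    exact ⟨a, ha, y, hy, h1⟩
  · rintro ⟨a, ha, y, hy, rfl⟩
    exact ⟨(a, 0), ⟨ha, rfl⟩, (y, g), hy, by simp⟩

lemma fib_nonempty_iff (K : Set (X × G)) (g : G) : (fib K g).Nonempty ↔ g ∈ Prod.snd '' K := by
  constructor
  · rintro ⟨x, hx⟩
    exact ⟨(x, g), hx, rfl⟩
  · rintro ⟨⟨x, g'⟩, h, rfl⟩
    exact ⟨x, h⟩

lemma prod_apply_fib (μ : Measure X) [SFinite μ] (ν : Measure G) [SFinite ν] {K : Set (X × G)}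
    (hK : IsCompact K) : (μ.prod ν) K = ∫⁻ g, μ (fib K g) ∂ν := by
  rw [Measure.prod_apply_symm hK.measurableSet]
  rfl

lemma measurable_fib (μ : Measure X) [SFinite μ] {K : Set (X × G)}
    (hK : IsCompact K) : Measurable (fun g => μ (fib K g)) :=
  measurable_measure_prodMk_right hK.measurableSet

end general

/-- Adding a segment in the first coordinate direction. -/
lemma prod_segment_add (ν : Measure G) [SFinite ν] {K : Set (ℝ × G)} (hK : IsCompact K)
    (hc : Convex ℝ K) {t : ℝ} (ht : 0 ≤ t) :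
    (volume.prod ν) (Icc 0 t ×ˢ {0} + K) =
      (volume.prod ν) K + ENNReal.ofReal t * ν (Prod.snd '' K) := by
  have hcomp : IsCompact (Icc (0 : ℝ) t ×ˢ {(0 : G)} + K) :=
    (isCompact_Icc.prod isCompact_singleton).add hK
  rw [prod_apply_fib volume ν hcomp, prod_apply_fib volume ν hK]
  have hsnd : IsCompact (Prod.snd '' K) := hK.image continuous_snd
  have h : ∀ g, volume (fib (Icc (0 : ℝ) t ×ˢ {(0 : G)} + K) g) =
      volume (fib K g) + (Prod.snd '' K).indicator (fun _ => ENNReal.ofReal t) g := by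
    intro g
    rw [fib_add]
    by_cases hg : g ∈ Prod.snd '' K
    · rw [indicator_of_mem hg]
      exact volume_Icc_add (fib_compact hK g) (fib_convex hc g) ((fib_nonempty_iff K g).2 hg) ht
    · rw [indicator_of_notMem hg]
      have : fib K g = ∅ := by
        rw [← not_nonempty_iff_eq_empty, fib_nonempty_iff]
        exact hg
      simp [this]
  simp_rw [h]
  rw [lintegral_add_left (measurable_fib volume hK), lintegral_indicator hsnd.measurableSet,
    setLIntegral_const]

/-! ### The planar lemma -/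

/-- The half-open parallelogram used inside the triangle. -/
def par (r w u : ℝ) : Set (ℝ × ℝ) :=
  {p | 0 < p.2 ∧ p.2 ≤ w / 2 ∧ p.2 / w * u ≤ p.1 ∧ p.1 ≤ p.2 / w * u + r / 2}

lemma measurableSet_par (r w u : ℝ) : MeasurableSet (par r w u) := by
  unfold par
  refine MeasurableSet.inter (measurableSet_lt measurable_const measurable_snd) ?_
  refine MeasurableSet.inter (measurableSet_le measurable_snd measurable_const) ?_
  refine MeasurableSet.inter (measurableSet_le ?_ measurable_fst) (measurableSet_le measurable_fst ?_)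
  · exact (measurable_snd.div_const _).mul_const _
  · exact ((measurable_snd.div_const _).mul_const _).add_const _

lemma volume_par {r w u : ℝ} (hr : 0 ≤ r) :
    (volume : Measure (ℝ × ℝ)) (par r w u) = ENNReal.ofReal (r * w / 4) := by
  rw [Measure.volume_eq_prod, Measure.prod_apply_symm (measurableSet_par r w u)]
  have h : ∀ y : ℝ, volume ((fun x => (x, y)) ⁻¹' par r w u) =
      (Ioc 0 (w / 2)).indicator (fun _ => ENNReal.ofReal (r / 2)) y := by
    intro y
    by_cases hy : y ∈ Ioc 0 (w / 2)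
    · rw [indicator_of_mem hy]
      have : ((fun x => (x, y)) ⁻¹' par r w u) = Icc (y / w * u) (y / w * u + r / 2) := by
        ext x
        simp only [par, mem_preimage, mem_ofPred_eq, mem_Icc]
        constructor
        · rintro ⟨_, _, h1, h2⟩
          exact ⟨h1, h2⟩
        · rintro ⟨h1, h2⟩
          exact ⟨hy.1, hy.2, h1, h2⟩
      rw [this, Real.volume_Icc]
      congr 1
      ring
    · rw [indicator_of_notMem hy]
      have : ((fun x => (x, y)) ⁻¹' par r w u) = ∅ := by
        ext x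
        simp only [par, mem_preimage, mem_ofPred_eq, mem_empty_iff_false, iff_false]
        rintro ⟨h1, h2, _⟩
        exact hy ⟨h1, h2⟩
      rw [this, measure_empty]
  simp_rw [h]
  rw [lintegral_indicator measurableSet_Ioc, setLIntegral_const, Real.volume_Ioc, sub_zero,
    ← ENNReal.ofReal_mul (by positivity)]
  congr 1
  ring

lemma par_subset {r w u : ℝ} (hr : 0 < r) (hw : 0 < w) :
    par r w u ⊆ convexHull ℝ {((0 : ℝ), (0 : ℝ)), (r, 0), (u, w)} := by
  rintro ⟨x, y⟩ ⟨h1, h2, h3, h4⟩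
  simp only at h1 h2 h3 h4
  rw [convexHull_insert (by simp)]
  rw [mem_convexJoin]
  refine ⟨(0, 0), rfl, ?_⟩
  set θ := y / w with hθ
  set η := (x - θ * u) / r with hη
  have hθ0 : 0 < θ := by positivity
  have hθ1 : θ ≤ 1 / 2 := by
    rw [hθ, div_le_iff₀ hw]; linarith
  have hη0 : 0 ≤ η := div_nonneg (by linarith) hr.le
  have hη1 : η ≤ 1 / 2 := by
    rw [hη, div_le_iff₀ hr]; linarith
  have hsum : 0 < θ + η := by linarith
  refine ⟨((η * r + θ * u) / (θ + η), θ * w / (θ + η)), ?_, ?_⟩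
  · rw [convexHull_pair, segment_eq_image]
    refine ⟨θ / (θ + η), ⟨by positivity, ?_⟩, ?_⟩
    · rw [div_le_one hsum]; linarith
    · ext
      · simp only [Prod.smul_mk, smul_eq_mul, Prod.mk_add_mk]
        field_simp
        ring
      · simp only [Prod.smul_mk, smul_eq_mul, Prod.mk_add_mk]
        field_simp
        ring
  · rw [segment_eq_image]
    refine ⟨θ + η, ⟨hsum.le, by linarith⟩, ?_⟩
    ext
    · simp only [Prod.smul_mk, smul_eq_mul, Prod.mk_add_mk, mul_zero, zero_add]
      rw [mul_div_cancel₀ _ hsum.ne', hη]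
      field_simp
      ring
    · simp only [Prod.smul_mk, smul_eq_mul, Prod.mk_add_mk, mul_zero, zero_add]
      rw [mul_div_cancel₀ _ hsum.ne', hθ]
      field_simp

/-- **Planar lemma.** -/
lemma planar {Q : Set (ℝ × ℝ)} (hQ : IsCompact Q) (hne : Q.Nonempty) {r w u : ℝ} (hr : 0 ≤ r)
    (hw : 0 ≤ w) :
    volume (Icc 0 r ×ˢ {(0 : ℝ)} + Q) + ENNReal.ofReal (r * w / 4) ≤
      volume (convexHull ℝ {((0 : ℝ), (0 : ℝ)), (r, 0), (u, w)} + Q) := by
  have hsub : Icc 0 r ×ˢ {(0 : ℝ)} ⊆ convexHull ℝ {((0 : ℝ), (0 : ℝ)), (r, 0), (u, w)} := by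
    rintro ⟨x, y⟩ ⟨hx, hy⟩
    simp only [mem_singleton_iff] at hy
    subst hy
    have h0 : ((0 : ℝ), (0 : ℝ)) ∈ convexHull ℝ {((0 : ℝ), (0 : ℝ)), (r, 0), (u, w)} :=
      subset_convexHull ℝ _ (by simp)
    have h1 : (r, (0 : ℝ)) ∈ convexHull ℝ {((0 : ℝ), (0 : ℝ)), (r, 0), (u, w)} :=
      subset_convexHull ℝ _ (by simp)
    apply (convex_convexHull ℝ _).segment_subset h0 h1
    rw [segment_eq_image]
    rcases hr.eq_or_lt with h | h
    · subst h
      refine ⟨0, by simp, ?_⟩
      have : x = 0 := le_antisymm hx.2 hx.1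
      simp [this]
    · refine ⟨x / r, ⟨div_nonneg hx.1 hr, ?_⟩, ?_⟩
      · rw [div_le_one h]; exact hx.2
      · ext
        · simp only [Prod.smul_mk, smul_eq_mul, Prod.mk_add_mk, mul_zero, zero_add]
          field_simp
        · simp
  rcases hr.eq_or_lt with h0 | hr0
  · subst h0
    simp only [zero_mul, zero_div, ENNReal.ofReal_zero, add_zero]
    exact measure_mono (add_subset_add_right hsub)
  rcases hw.eq_or_lt with h0 | hw0
  · subst h0
    simp only [mul_zero, zero_div, ENNReal.ofReal_zero, add_zero]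
    exact measure_mono (add_subset_add_right hsub)
  obtain ⟨q, hq, hmax⟩ := hQ.exists_isMaxOn hne continuous_snd.continuousOn
  have hpar : volume ((fun p => q + p) '' par r w u) = ENNReal.ofReal (r * w / 4) := by
    rw [image_add_left, measure_preimage_add, volume_par hr]
  rw [← hpar, ← measure_union]
  · apply measure_mono
    apply union_subset (add_subset_add_right hsub)
    rintro _ ⟨p, hp, rfl⟩
    have h4 : p + q ∈ convexHull ℝ {((0 : ℝ), (0 : ℝ)), (r, 0), (u, w)} + Q :=
      add_mem_add (par_subset hr0 hw0 hp) hq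
    rw [add_comm p q] at h4
    exact h4
  · rw [Set.disjoint_left]
    rintro _ ⟨⟨a, b⟩, ⟨_, hb⟩, y, hy, rfl⟩ ⟨p, hp, hp2⟩
    simp only [mem_singleton_iff] at hb
    subst hb
    have h1 : y.2 ≤ q.2 := hmax hy
    have h2 : 0 < p.2 := hp.1
    have h3 := congrArg Prod.snd hp2
    simp only [Prod.snd_add, zero_add] at h3
    linarith
  · have hm : MeasurableSet ((fun p => q + p) '' par r w u) := by
      rw [image_add_left]
      exact measurable_const_add _ (measurableSet_par r w u)
    exact hm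


/-- Fibrewise version of the planar lemma. -/
lemma tri_prod (ν : Measure G) [SFinite ν] {K : Set ((ℝ × ℝ) × G)} (hK : IsCompact K)
    {r w u : ℝ} (hr : 0 ≤ r) (hw : 0 ≤ w) :
    (volume.prod ν) ((Icc 0 r ×ˢ {(0 : ℝ)}) ×ˢ {(0 : G)} + K) +
        ENNReal.ofReal (r * w / 4) * ν (Prod.snd '' K) ≤
      (volume.prod ν) ((convexHull ℝ {((0 : ℝ), (0 : ℝ)), (r, 0), (u, w)}) ×ˢ {(0 : G)} + K) := by
  have hA : IsCompact (Icc (0 : ℝ) r ×ˢ {(0 : ℝ)}) := isCompact_Icc.prod isCompact_singleton
  have hT : IsCompact (convexHull ℝ {((0 : ℝ), (0 : ℝ)), (r, 0), (u, w)}) :=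
    Set.Finite.isCompact_convexHull (𝕜 := ℝ) (Set.toFinite _)
  have h1 : IsCompact ((Icc (0 : ℝ) r ×ˢ {(0 : ℝ)}) ×ˢ {(0 : G)} + K) :=
    (hA.prod isCompact_singleton).add hK
  have h2 : IsCompact ((convexHull ℝ {((0 : ℝ), (0 : ℝ)), (r, 0), (u, w)}) ×ˢ {(0 : G)} + K) :=
    (hT.prod isCompact_singleton).add hK
  rw [prod_apply_fib volume ν h1, prod_apply_fib volume ν h2]
  have hsnd : IsCompact (Prod.snd '' K) := hK.image continuous_snd
  have h3 : ENNReal.ofReal (r * w / 4) * ν (Prod.snd '' K) =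
      ∫⁻ g, (Prod.snd '' K).indicator (fun _ => ENNReal.ofReal (r * w / 4)) g ∂ν := by
    rw [lintegral_indicator hsnd.measurableSet, setLIntegral_const]
  rw [h3, ← lintegral_add_left (measurable_fib volume h1)]
  apply lintegral_mono
  intro g
  simp only
  rw [fib_add, fib_add]
  by_cases hg : g ∈ Prod.snd '' K
  · rw [indicator_of_mem hg]
    exact planar (fib_compact hK g) ((fib_nonempty_iff K g).2 hg) hr hw
  · rw [indicator_of_notMem hg]
    have : fib K g = ∅ := by
      rw [← not_nonempty_iff_eq_empty, fib_nonempty_iff]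
      exact hg
    simp [this]

/-- A planar convex compact set of height at most `2`. -/
lemma planar_base {Q : Set (ℝ × ℝ)} (hQ : IsCompact Q) (hc : Convex ℝ Q)
    (hwid : ∀ p ∈ Q, ∀ q ∈ Q, p.2 - q.2 ≤ 2) :
    volume (Icc 0 1 ×ˢ {(0 : ℝ)} + Q) ≤ volume Q + 2 := by
  rcases Q.eq_empty_or_nonempty with h | hne
  · simp [h]
  rw [Measure.volume_eq_prod, prod_segment_add volume hQ hc zero_le_one]
  simp only [ENNReal.ofReal_one, one_mul]
  gcongr
  obtain ⟨q, hq, hmax⟩ := hQ.exists_isMaxOn hne continuous_snd.continuousOn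
  have : Prod.snd '' Q ⊆ Icc (q.2 - 2) q.2 := by
    rintro _ ⟨p, hp, rfl⟩
    refine ⟨?_, hmax hp⟩
    have := hwid q hq p hp
    linarith
  refine (measure_mono this).trans ?_
  rw [Real.volume_Icc]
  simp

lemma base_prod (ν : Measure G) [SFinite ν] {K : Set ((ℝ × ℝ) × G)} (hK : IsCompact K)
    (hc : Convex ℝ K) (hwid : ∀ p ∈ K, ∀ q ∈ K, p.2 = q.2 → p.1.2 - q.1.2 ≤ 2) :
    (volume.prod ν) ((Icc 0 1 ×ˢ {(0 : ℝ)}) ×ˢ {(0 : G)} + K) ≤
      (volume.prod ν) K + 2 * ν (Prod.snd '' K) := by
  have hA : IsCompact (Icc (0 : ℝ) 1 ×ˢ {(0 : ℝ)}) := isCompact_Icc.prod isCompact_singleton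
  have h1 : IsCompact ((Icc (0 : ℝ) 1 ×ˢ {(0 : ℝ)}) ×ˢ {(0 : G)} + K) :=
    (hA.prod isCompact_singleton).add hK
  rw [prod_apply_fib volume ν h1, prod_apply_fib volume ν hK]
  have hsnd : IsCompact (Prod.snd '' K) := hK.image continuous_snd
  have h3 : 2 * ν (Prod.snd '' K) =
      ∫⁻ g, (Prod.snd '' K).indicator (fun _ => 2) g ∂ν := by
    rw [lintegral_indicator hsnd.measurableSet, setLIntegral_const]
  rw [h3, ← lintegral_add_left (measurable_fib volume hK)]
  apply lintegral_mono
  intro g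
  simp only
  rw [fib_add]
  by_cases hg : g ∈ Prod.snd '' K
  · rw [indicator_of_mem hg]
    exact planar_base (fib_compact hK g) (fib_convex hc g) (fun p hp q hq => hwid _ hp _ hq rfl)
  · rw [indicator_of_notMem hg]
    have : fib K g = ∅ := by
      rw [← not_nonempty_iff_eq_empty, fib_nonempty_iff]
      exact hg
    simp [this]

/-- Disintegration of a Haar measure along a linear isomorphism with a product. -/
lemma exists_measure_decomp {E X : Type*} [NormedAddCommGroup E] [NormedSpace ℝ E]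
    [FiniteDimensional ℝ E] [MeasurableSpace E] [BorelSpace E] (μ : Measure E) [μ.IsAddHaarMeasure]
    [NormedAddCommGroup X] [NormedSpace ℝ X] [FiniteDimensional ℝ X] [MeasureSpace X]
    [BorelSpace X] [(volume : Measure X).IsAddHaarMeasure] [FiniteDimensional ℝ G]
    (Φ : E ≃L[ℝ] X × G) :
    ∃ ν : Measure G, SFinite ν ∧ ∀ S : Set E, μ S = ((volume : Measure X).prod ν) (Φ '' S) := by
  have : ProperSpace (X × G) := FiniteDimensional.proper ℝ (X × G)
  have : ProperSpace X := FiniteDimensional.proper ℝ X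
  have : ProperSpace G := FiniteDimensional.proper ℝ G
  set ν₀ : Measure G := Measure.addHaar
  have h1 : (μ.map Φ).IsAddHaarMeasure := Φ.isAddHaarMeasure_map μ
  have h2 : μ.map Φ = Measure.addHaarScalarFactor (μ.map Φ) ((volume : Measure X).prod ν₀) •
      ((volume : Measure X).prod ν₀) := Measure.isAddLeftInvariant_eq_smul _ _
  set c := Measure.addHaarScalarFactor (μ.map Φ) ((volume : Measure X).prod ν₀)
  refine ⟨c • ν₀, inferInstance, fun S => ?_⟩
  rw [Measure.prod_smul_right, ← h2]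
  have h3 := (Φ.toHomeomorph.toMeasurableEquiv).map_apply (μ := μ) (Φ '' S)
  have h4 : (Φ.toHomeomorph.toMeasurableEquiv) ⁻¹' (Φ '' S) = S :=
    preimage_image_eq S Φ.injective
  rw [h4] at h3
  exact h3.symm

end Pool.Agent.Lib.MP_c8b24c_co
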