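import Mathlib
import Pool.Agent.Lib.MP_c8b24c_co.ProdVol

set_option autoImplicit false
set_option linter.unusedSectionVars false

open Set MeasureTheory Pointwise
open scoped ENNReal

namespace Pool.Agent.Lib.MP_c8b24c_co

variable {E : Type*} [NormedAddCommGroup E] [NormedSpace ℝ E] [FiniteDimensional ℝ E]
  [MeasurableSpace E] [BorelSpace E]

/-! ### Splittings of the space -/

/-- Splitting off the direction `e`. -/
noncomputable def split1 (e : E) (ℓ : E →ₗ[ℝ] ℝ) (h : ℓ e = 1) :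
    E ≃L[ℝ] ℝ × LinearMap.ker ℓ :=
  LinearEquiv.toContinuousLinearEquiv
  { toFun := fun x => (ℓ x, ⟨x - ℓ x • e, by simp [h]⟩)
    map_add' := by
      intro x y
      ext
      · simp
      · simp only [map_add, Prod.mk_add_mk, Submodule.coe_add, add_smul]
        abel
    map_smul' := by
      intro c x
      ext
      · simp
      · simp only [map_smul, smul_eq_mul, RingHom.id_apply, Prod.smul_mk, SetLike.mk_smul_mk,
          smul_sub, mul_smul]
    invFun := fun p => p.1 • e + (p.2 : E)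
    left_inv := by
      intro x
      simp
    right_inv := by
      rintro ⟨a, f, hf⟩
      rw [LinearMap.mem_ker] at hf
      ext
      · simp [h, hf]
      · simp [h, hf] }

lemma split1_apply (e : E) (ℓ : E →ₗ[ℝ] ℝ) (h : ℓ e = 1) (x : E) :
    split1 e ℓ h x = (ℓ x, ⟨x - ℓ x • e, by simp [h]⟩) := rfl

/-- Splitting off two directions. -/
noncomputable def split2 (e v : E) (ℓ m : E →ₗ[ℝ] ℝ) (h1 : ℓ e = 1) (h2 : ℓ v = 0)
    (h3 : m e = 0) (h4 : m v = 1) :
    E ≃L[ℝ] (ℝ × ℝ) × (LinearMap.ker ℓ ⊓ LinearMap.ker m : Submodule ℝ E) :=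
  LinearEquiv.toContinuousLinearEquiv
  { toFun := fun x => ((ℓ x, m x), ⟨x - ℓ x • e - m x • v, by simp [h1, h2, h3, h4]⟩)
    map_add' := by
      intro x y
      ext
      · simp
      · simp
      · simp only [map_add, Prod.mk_add_mk, Submodule.coe_add, add_smul]
        abel
    map_smul' := by
      intro c x
      ext
      · simp
      · simp
      · simp only [map_smul, smul_eq_mul, RingHom.id_apply, Prod.smul_mk, SetLike.mk_smul_mk,
          smul_sub, mul_smul]
    invFun := fun p => p.1.1 • e + p.1.2 • v + (p.2 : E)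
    left_inv := by
      intro x
      simp
    right_inv := by
      rintro ⟨⟨a, b⟩, f, hf⟩
      rw [Submodule.mem_inf, LinearMap.mem_ker, LinearMap.mem_ker] at hf
      ext
      · simp [h1, h2, hf.1]
      · simp [h3, h4, hf.2]
      · simp only [map_add, map_smul, h1, h2, h3, h4, hf.1, hf.2, smul_eq_mul, mul_one, mul_zero,
          add_zero, zero_add]
        abel }

lemma split2_apply (e v : E) (ℓ m : E →ₗ[ℝ] ℝ) (h1 : ℓ e = 1) (h2 : ℓ v = 0)
    (h3 : m e = 0) (h4 : m v = 1) (x : E) :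
    split2 e v ℓ m h1 h2 h3 h4 x =
      ((ℓ x, m x), ⟨x - ℓ x • e - m x • v, by simp [h1, h2, h3, h4]⟩) := rfl

lemma segment_fst {G : Type*} [AddCommGroup G] [Module ℝ G] {t : ℝ} (ht : 0 ≤ t) :
    segment ℝ ((0 : ℝ), (0 : G)) (t, 0) = Icc 0 t ×ˢ {(0 : G)} := by
  ext ⟨x, y⟩
  rw [segment_eq_image]
  simp only [mem_image, Prod.smul_mk, smul_zero, Prod.mk_add_mk, smul_eq_mul, mul_zero, zero_add,
    Prod.mk.injEq, mem_prod, mem_singleton_iff, add_zero]
  constructor
  · rintro ⟨θ, hθ, h1, h2⟩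
    refine ⟨⟨?_, ?_⟩, h2.symm⟩
    · rw [← h1]; exact mul_nonneg hθ.1 ht
    · rw [← h1]; nlinarith [hθ.2]
  · rintro ⟨hx, rfl⟩
    rcases ht.eq_or_lt with h | h
    · subst h
      exact ⟨0, by simp, by have := le_antisymm hx.2 hx.1; simp [this], rfl⟩
    · refine ⟨x / t, ⟨div_nonneg hx.1 ht, ?_⟩, ?_, rfl⟩
      · rw [div_le_one h]; exact hx.2
      · field_simp

lemma image_segment_clm {E F : Type*} [NormedAddCommGroup E] [NormedSpace ℝ E]
    [NormedAddCommGroup F] [NormedSpace ℝ F] (Φ : E ≃L[ℝ] F) (a b : E) :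
    Φ '' segment ℝ a b = segment ℝ (Φ a) (Φ b) := by
  have := image_segment ℝ (Φ : E →ₗ[ℝ] F).toAffineMap a b
  simpa using this

lemma isCompact_segment' (a b : E) : IsCompact (segment ℝ a b) := by
  rw [← convexHull_pair]
  exact (Set.toFinite _).isCompact_convexHull ℝ

/-! ### The growth functional -/

/-- `gr μ K z = vol([0,z] + K) - vol(K)`. -/
noncomputable def gr (μ : Measure E) (K : Set E) (z : E) : ℝ :=
  μ.real (segment ℝ 0 z + K) - μ.real K

variable (μ : Measure E) [μ.IsAddHaarMeasure]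

lemma measure_segment_add {e : E} {ℓ : E →ₗ[ℝ] ℝ} (h : ℓ e = 1)
    (ν : Measure (LinearMap.ker ℓ)) [SFinite ν]
    (hν : ∀ S : Set E, μ S = ((volume : Measure ℝ).prod ν) (split1 e ℓ h '' S))
    {K : Set E} (hK : IsCompact K) (hc : Convex ℝ K) {t : ℝ} (ht : 0 ≤ t) :
    μ (segment ℝ 0 (t • e) + K) = μ K + ENNReal.ofReal t * ν (Prod.snd '' (split1 e ℓ h '' K)) := by
  rw [hν, hν K, image_add, image_segment_clm]
  have h1 : split1 e ℓ h 0 = (0, 0) := map_zero _
  have h2 : split1 e ℓ h (t • e) = (t, 0) := by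
    rw [map_smul, split1_apply]
    ext
    · simp [h]
    · simp [h]
  rw [h1, h2, segment_fst ht]
  exact prod_segment_add ν (hK.image (split1 e ℓ h).continuous)
    (hc.linear_image (split1 e ℓ h).toLinearEquiv.toLinearMap) ht

lemma exists_functional_eq_one {z : E} (hz : z ≠ 0) : ∃ ℓ : E →ₗ[ℝ] ℝ, ℓ z = 1 := by
  obtain ⟨f, hf⟩ := SeparatingDual.exists_eq_one (R := ℝ) hz
  exact ⟨f, hf⟩

lemma isCompact_segment_add {K : Set E} (hK : IsCompact K) (a b : E) :
    IsCompact (segment ℝ a b + K) := (isCompact_segment' a b).add hK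

/-- Linear growth of the volume under addition of segments. -/
lemma real_segment_add {K : Set E} (hK : IsCompact K) (hc : Convex ℝ K) (z : E) {t : ℝ}
    (ht : 0 ≤ t) : μ.real (segment ℝ 0 (t • z) + K) = μ.real K + t * gr μ K z := by
  by_cases hz : z = 0
  · subst hz
    simp [gr]
  obtain ⟨ℓ, hℓ⟩ := exists_functional_eq_one hz
  obtain ⟨ν, hν1, hν2⟩ := exists_measure_decomp μ (split1 z ℓ hℓ)
  have h1 := measure_segment_add μ hℓ ν hν2 hK hc ht
  have h2 := measure_segment_add μ hℓ ν hν2 hK hc zero_le_one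
  rw [one_smul, ENNReal.ofReal_one, one_mul] at h2
  have hfin : μ (segment ℝ 0 z + K) ≠ ⊤ := (isCompact_segment_add hK 0 z).measure_ne_top
  have hfinK : μ K ≠ ⊤ := hK.measure_ne_top
  have hν3 : ν (Prod.snd '' (split1 z ℓ hℓ '' K)) ≠ ⊤ := by
    intro h
    rw [h] at h2
    simp at h2
    exact hfin h2
  have h3 : μ.real (segment ℝ 0 (t • z) + K) =
      μ.real K + t * (ν (Prod.snd '' (split1 z ℓ hℓ '' K))).toReal := by
    rw [measureReal_def, h1, ENNReal.toReal_add hfinK (ENNReal.mul_ne_top ENNReal.ofReal_ne_top hν3),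
      ENNReal.toReal_mul, ENNReal.toReal_ofReal ht]
    rfl
  have h4 : gr μ K z = (ν (Prod.snd '' (split1 z ℓ hℓ '' K))).toReal := by
    rw [gr, measureReal_def, h2, ENNReal.toReal_add hfinK hν3, measureReal_def]
    ring
  rw [h3, h4]

/-- Homogeneity of the growth functional. -/
lemma gr_smul {K : Set E} (hK : IsCompact K) (hc : Convex ℝ K) (z : E) {t : ℝ}
    (ht : 0 ≤ t) : gr μ K (t • z) = t * gr μ K z := by
  have := real_segment_add μ hK hc z ht
  rw [gr, this]
  ring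

lemma isCompact_proj {K : Set E} (hK : IsCompact K) (e : E) (ℓ : E →ₗ[ℝ] ℝ) :
    IsCompact ((fun x => x - ℓ x • e) '' K) := by
  apply hK.image
  have : Continuous ℓ := ℓ.continuous_of_finiteDimensional
  fun_prop

lemma convex_proj {K : Set E} (hK : Convex ℝ K) (e : E) (ℓ : E →ₗ[ℝ] ℝ) :
    Convex ℝ ((fun x => x - ℓ x • e) '' K) :=
  hK.linear_image (LinearMap.id - ℓ.smulRight e)

/-- The circumscribed cylinder in direction `e` between the supporting hyperplanes
`ℓ = m₀` and `ℓ = m₀ + 1`. -/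
lemma cylinder {e : E} {ℓ : E →ₗ[ℝ] ℝ} (h : ℓ e = 1) {K : Set E} (hK : IsCompact K)
    (hc : Convex ℝ K) {m₀ : ℝ} (hm : ∀ x ∈ K, m₀ ≤ ℓ x ∧ ℓ x ≤ m₀ + 1) :
    K ⊆ (fun x => x - ℓ x • e) '' K + segment ℝ (m₀ • e) ((m₀ + 1) • e) ∧
      μ.real ((fun x => x - ℓ x • e) '' K + segment ℝ (m₀ • e) ((m₀ + 1) • e)) = gr μ K e := by
  constructor
  · intro x hx
    refine ⟨x - ℓ x • e, ⟨x, hx, rfl⟩, ℓ x • e, ?_, by simp⟩
    rw [segment_eq_image]
    refine ⟨ℓ x - m₀, ⟨by linarith [(hm x hx).1], by linarith [(hm x hx).2]⟩, ?_⟩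
    simp only [← mul_smul, ← add_smul]
    congr 1
    ring
  · obtain ⟨ν, hν1, hν2⟩ := exists_measure_decomp μ (split1 e ℓ h)
    have h2 := measure_segment_add μ h ν hν2 hK hc zero_le_one
    rw [one_smul, ENNReal.ofReal_one, one_mul] at h2
    have hfin : μ (segment ℝ 0 e + K) ≠ ⊤ := (isCompact_segment_add hK 0 e).measure_ne_top
    have hfinK : μ K ≠ ⊤ := hK.measure_ne_top
    have hν3 : ν (Prod.snd '' (split1 e ℓ h '' K)) ≠ ⊤ := by
      intro h
      rw [h] at h2
      simp at h2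
      exact hfin h2
    have h4 : gr μ K e = (ν (Prod.snd '' (split1 e ℓ h '' K))).toReal := by
      rw [gr, measureReal_def, h2, ENNReal.toReal_add hfinK hν3, measureReal_def]
      ring
    rw [h4, measureReal_def, hν2]
    congr 1
    have h5 : split1 e ℓ h '' ((fun x => x - ℓ x • e) '' K + segment ℝ (m₀ • e) ((m₀ + 1) • e)) =
        Icc m₀ (m₀ + 1) ×ˢ (Prod.snd '' (split1 e ℓ h '' K)) := by
      ext ⟨a, f⟩
      simp only [mem_image, mem_add, mem_prod, exists_exists_and_eq_and]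
      constructor
      · rintro ⟨_, ⟨x, hx, y, hy, rfl⟩, h6⟩
        rw [segment_eq_image] at hy
        obtain ⟨θ, hθ, rfl⟩ := hy
        rw [split1_apply] at h6
        simp only [map_add, map_sub, map_smul, h, smul_eq_mul, mul_one, Prod.mk.injEq] at h6
        obtain ⟨h7, h8⟩ := h6
        refine ⟨⟨?_, ?_⟩, x, hx, ?_⟩
        · rw [← h7]; nlinarith [hθ.1, hθ.2]
        · rw [← h7]; nlinarith [hθ.1, hθ.2]
        · rw [← h8, split1_apply]
          ext
          simp only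
          module
      · rintro ⟨ha, x, hx, rfl⟩
        refine ⟨_, ⟨x, hx, a • e, ?_, rfl⟩, ?_⟩
        · rw [segment_eq_image]
          refine ⟨a - m₀, ⟨by linarith [ha.1], by linarith [ha.2]⟩, ?_⟩
          simp only [← mul_smul, ← add_smul]
          congr 1
          ring
        · rw [split1_apply, split1_apply]
          simp only [map_add, map_sub, map_smul, h, smul_eq_mul, mul_one, Prod.mk.injEq]
          refine ⟨by ring, ?_⟩
          ext
          simp only
          module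
    rw [h5, Measure.prod_prod, Real.volume_Icc]
    simp

lemma finrank_vectorSpan_proj {e : E} {ℓ : E →ₗ[ℝ] ℝ} (h : ℓ e = 1) {K : Set E}
    (hc : Convex ℝ K) (hint : (interior K).Nonempty) :
    Module.finrank ℝ (vectorSpan ℝ ((fun x => x - ℓ x • e) '' K)) = Module.finrank ℝ E - 1 := by
  have h1 : affineSpan ℝ K = ⊤ := hc.interior_nonempty_iff_affineSpan_eq_top.1 hint
  have h2 : vectorSpan ℝ K = ⊤ := by
    rw [← direction_affineSpan, h1]; simp
  set π : E →ₗ[ℝ] E := LinearMap.id - ℓ.smulRight e with hπ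
  have h3 : ((fun x => x - ℓ x • e) '' K) = π.toAffineMap '' K := rfl
  have h4 : LinearMap.range π = LinearMap.ker ℓ := by
    ext x
    constructor
    · rintro ⟨y, rfl⟩
      simp [hπ, h]
    · intro hx
      rw [LinearMap.mem_ker] at hx
      exact ⟨x, by simp [hπ, hx]⟩
  rw [h3, ← AffineMap.map_vectorSpan, h2]
  have h5 : Submodule.map π.toAffineMap.linear ⊤ = LinearMap.ker ℓ := by
    rw [← h4]
    exact Submodule.map_top π
  rw [h5]
  have hne : ℓ ≠ 0 := by
    rintro rfl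
    simp at h
  have := Module.Dual.finrank_ker_add_one_of_ne_zero (f := ℓ) hne
  omega

/-- Every cylinder containing `K` has volume at least `gr μ K z` (`z` its generator), and its
generator is at least as long as the chords of `K` in that direction. -/
lemma cylinder_lower {A K : Set E} (hA : IsCompact A) (hAc : Convex ℝ A)
    (hK : IsCompact K) (hc : Convex ℝ K) (hint : (interior K).Nonempty) {p q : E}
    (hfin : Module.finrank ℝ (vectorSpan ℝ A) < Module.finrank ℝ E)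
    (hsub : K ⊆ A + segment ℝ p q) :
    gr μ K (q - p) ≤ μ.real (A + segment ℝ p q) ∧
      ∃ ℓ : E →ₗ[ℝ] ℝ, ℓ (q - p) = 1 ∧ ∀ x ∈ K, ∀ y ∈ K, ℓ (x - y) ≤ 1 := by
  have hKne : K.Nonempty := hint.mono interior_subset
  have hAne : A.Nonempty := by
    obtain ⟨x, hx⟩ := hKne
    obtain ⟨a, ha, _⟩ := hsub hx
    exact ⟨a, ha⟩
  obtain ⟨a₀, ha₀⟩ := hAne
  have hz : q - p ∉ vectorSpan ℝ A := by
    intro hz
    have h1 : A + segment ℝ p q ⊆ (fun x => (a₀ + p) + x) '' (vectorSpan ℝ A : Set E) := by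
      rintro _ ⟨a, ha, y, hy, rfl⟩
      rw [segment_eq_image'] at hy
      obtain ⟨θ, _, rfl⟩ := hy
      refine ⟨(a - a₀) + θ • (q - p), ?_, by simp only; abel⟩
      exact (vectorSpan ℝ A).add_mem (vsub_mem_vectorSpan ℝ ha ha₀) ((vectorSpan ℝ A).smul_mem _ hz)
    have h2 : (interior ((fun x => (a₀ + p) + x) '' (vectorSpan ℝ A : Set E))).Nonempty :=
      hint.mono (interior_mono (hsub.trans h1))
    have h3 : interior ((fun x => (a₀ + p) + x) '' (vectorSpan ℝ A : Set E)) =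
        (fun x => (a₀ + p) + x) '' interior (vectorSpan ℝ A : Set E) :=
      ((Homeomorph.addLeft (a₀ + p)).image_interior _).symm
    rw [h3] at h2
    have h4 : vectorSpan ℝ A = ⊤ := Submodule.eq_top_of_nonempty_interior' _ (Set.image_nonempty.1 h2)
    rw [h4] at hfin
    simp at hfin
  obtain ⟨f, hf1, hf2⟩ := Submodule.exists_le_ker_of_notMem hz
  set ℓ : E →ₗ[ℝ] ℝ := (f (q - p))⁻¹ • f with hℓ
  have h : ℓ (q - p) = 1 := by
    simp only [hℓ, LinearMap.smul_apply, smul_eq_mul]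
    exact inv_mul_cancel₀ hf1
  have hker : ∀ a ∈ A, ℓ a = ℓ a₀ := by
    intro a ha
    have h1 : a - a₀ ∈ LinearMap.ker f := hf2 (vsub_mem_vectorSpan ℝ ha ha₀)
    rw [LinearMap.mem_ker, map_sub] at h1
    simp only [hℓ, LinearMap.smul_apply, smul_eq_mul]
    rw [sub_eq_zero.1 h1]
  have hrange : ∀ x ∈ K, ℓ a₀ + ℓ p ≤ ℓ x ∧ ℓ x ≤ ℓ a₀ + ℓ p + 1 := by
    intro x hx
    obtain ⟨a, ha, y, hy, rfl⟩ := hsub hx
    rw [segment_eq_image'] at hy
    obtain ⟨θ, hθ, rfl⟩ := hy
    simp only [map_add, map_smul, hker a ha, h, smul_eq_mul, mul_one]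
    constructor <;> linarith [hθ.1, hθ.2]
  constructor
  · obtain ⟨ν, hν1, hν2⟩ := exists_measure_decomp μ (split1 (q - p) ℓ h)
    have h2 := measure_segment_add μ h ν hν2 hK hc zero_le_one
    rw [one_smul, ENNReal.ofReal_one, one_mul] at h2
    have hfin1 : μ (segment ℝ 0 (q - p) + K) ≠ ⊤ := (isCompact_segment_add hK 0 _).measure_ne_top
    have hfinK : μ K ≠ ⊤ := hK.measure_ne_top
    have hν3 : ν (Prod.snd '' (split1 (q - p) ℓ h '' K)) ≠ ⊤ := by
      intro h
      rw [h] at h2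
      simp at h2
      exact hfin1 h2
    have h4 : gr μ K (q - p) = (ν (Prod.snd '' (split1 (q - p) ℓ h '' K))).toReal := by
      rw [gr, measureReal_def, h2, ENNReal.toReal_add hfinK hν3, measureReal_def]
      ring
    have hcomp : IsCompact (A + segment ℝ p q) := hA.add (isCompact_segment' p q)
    rw [h4, measureReal_def]
    apply ENNReal.toReal_mono hcomp.measure_ne_top
    rw [hν2]
    have h5 : Icc (ℓ a₀ + ℓ p) (ℓ a₀ + ℓ p + 1) ×ˢ (Prod.snd '' (split1 (q - p) ℓ h '' K)) ⊆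
        split1 (q - p) ℓ h '' (A + segment ℝ p q) := by
      rintro ⟨t, f'⟩ ⟨ht, hf'⟩
      simp only [mem_image, exists_exists_and_eq_and] at hf'
      obtain ⟨x, hx, rfl⟩ := hf'
      obtain ⟨a, ha, y, hy, rfl⟩ := hsub hx
      rw [segment_eq_image'] at hy
      obtain ⟨θ, hθ, rfl⟩ := hy
      refine ⟨a + (p + (t - ℓ a₀ - ℓ p) • (q - p)), ⟨a, ha, _, ?_, rfl⟩, ?_⟩
      · rw [segment_eq_image']
        exact ⟨t - ℓ a₀ - ℓ p, ⟨by linarith [ht.1], by linarith [ht.2]⟩, rfl⟩
      · rw [split1_apply, split1_apply]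
        simp only [map_add, map_smul, h, smul_eq_mul, mul_one, Prod.mk.injEq, hker a ha]
        refine ⟨by ring, ?_⟩
        ext
        simp only
        module
    refine le_trans ?_ (measure_mono h5)
    rw [Measure.prod_prod, Real.volume_Icc]
    simp
  · refine ⟨ℓ, h, fun x hx y hy => ?_⟩
    rw [map_sub]
    linarith [(hrange x hx).2, (hrange y hy).1]

lemma segment_fst2 {G : Type*} [AddCommGroup G] [Module ℝ G] {t : ℝ} (ht : 0 ≤ t) :
    segment ℝ (((0 : ℝ), (0 : ℝ)), (0 : G)) ((t, 0), 0) = (Icc 0 t ×ˢ {(0 : ℝ)}) ×ˢ {(0 : G)} := by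
  rw [← segment_fst (G := ℝ) ht]
  ext ⟨x, y⟩
  rw [segment_eq_image, segment_eq_image]
  simp only [mem_image, mem_prod, mem_singleton_iff]
  constructor
  · rintro ⟨θ, hθ, h⟩
    rw [Prod.ext_iff] at h
    exact ⟨⟨θ, hθ, by simpa using h.1⟩, by simpa using h.2.symm⟩
  · rintro ⟨⟨θ, hθ, h1⟩, h2⟩
    refine ⟨θ, hθ, ?_⟩
    rw [Prod.ext_iff]
    exact ⟨by simpa using h1, by simpa using h2.symm⟩

/-- **Triangle lemma.** -/
lemma triangle {e v : E} {ℓ m : E →ₗ[ℝ] ℝ} (h1 : ℓ e = 1) (h2 : ℓ v = 0)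
    (h3 : m e = 0) (h4 : m v = 1) {K : Set E} (hK : IsCompact K) (hc : Convex ℝ K)
    (hwid : ∀ x ∈ K, ∀ y ∈ K, m (x - y) ≤ 2) {r w : ℝ} (hr : 0 ≤ r) (hw : 0 ≤ w) (u : ℝ) :
    μ.real (segment ℝ 0 (r • e) + K) + r * w / 8 * gr μ K e ≤
      μ.real (convexHull ℝ {0, r • e, u • e + w • v} + K) := by
  obtain ⟨ν, hν1, hν⟩ := exists_measure_decomp μ (split2 e v ℓ m h1 h2 h3 h4)
  set Φ := split2 e v ℓ m h1 h2 h3 h4 with hΦ
  have hΦK : IsCompact (Φ '' K) := hK.image Φ.continuous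
  have hΦc : Convex ℝ (Φ '' K) := hc.linear_image Φ.toLinearEquiv.toLinearMap
  have h0 : Φ 0 = ((0, 0), 0) := map_zero _
  have he : ∀ t : ℝ, Φ (t • e) = ((t, 0), 0) := by
    intro t
    rw [hΦ, split2_apply]
    ext <;> simp [h1, h3]
  have hb : Φ (u • e + w • v) = ((u, w), 0) := by
    rw [hΦ, split2_apply]
    ext <;> simp [h1, h2, h3, h4]
  have himg : ∀ t : ℝ, 0 ≤ t → Φ '' (segment ℝ 0 (t • e) + K) =
      (Icc 0 t ×ˢ {(0 : ℝ)}) ×ˢ {0} + Φ '' K := by
    intro t ht
    rw [image_add, image_segment_clm, h0, he, segment_fst2 ht]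
  have himgT : ∀ r w u : ℝ, Φ '' (convexHull ℝ {0, r • e, u • e + w • v} + K) =
      (convexHull ℝ {((0 : ℝ), (0 : ℝ)), (r, 0), (u, w)}) ×ˢ {0} + Φ '' K := by
    intro r w u
    have hb' : Φ (u • e + w • v) = ((u, w), 0) := by
      rw [hΦ, split2_apply]
      ext <;> simp [h1, h2, h3, h4]
    rw [image_add]
    congr 1
    have h5 := (Φ.toLinearEquiv.toLinearMap).image_convexHull {0, r • e, u • e + w • v}
    have h6 : (Φ.toLinearEquiv.toLinearMap : E → _) = Φ := rfl
    rw [h6] at h5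
    rw [h5, image_insert_eq, image_insert_eq, image_singleton, h0, he, hb']
    have h7 : ({((0 : ℝ), (0 : ℝ)), (r, 0), (u, w)} : Set (ℝ × ℝ)) ×ˢ
        ({0} : Set (LinearMap.ker ℓ ⊓ LinearMap.ker m : Submodule ℝ E)) =
        {((0, 0), 0), ((r, 0), 0), ((u, w), 0)} := by
      ext ⟨x, y⟩
      simp only [mem_prod, mem_insert_iff, mem_singleton_iff, Prod.mk.injEq]
      tauto
    rw [← h7, convexHull_prod, convexHull_singleton]
  -- finiteness of the base measure
  set N := ν (Prod.snd '' (Φ '' K)) with hN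
  have hNfin : N ≠ ⊤ := by
    have h5 := tri_prod ν hΦK (r := 4) (w := 1) (u := 0) (by norm_num) (by norm_num)
    rw [← himgT, ← hν] at h5
    have h6 : μ (convexHull ℝ {0, (4 : ℝ) • e, (0 : ℝ) • e + (1 : ℝ) • v} + K) ≠ ⊤ :=
      (((Set.toFinite _).isCompact_convexHull ℝ).add hK).measure_ne_top
    have h7 : N ≤ μ (convexHull ℝ {0, (4 : ℝ) • e, (0 : ℝ) • e + (1 : ℝ) • v} + K) := by
      refine le_trans ?_ h5
      simp [hN]
    exact ne_top_of_le_ne_top h6 h7
  have hA := tri_prod ν hΦK (u := u) hr hw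
  rw [← himgT, ← himg r hr, ← hν, ← hν] at hA
  have hB := base_prod ν hΦK hΦc (by
    rintro _ ⟨x, hx, rfl⟩ _ ⟨y, hy, rfl⟩ _
    have := hwid x hx y hy
    rw [map_sub] at this
    exact this)
  rw [← himg 1 zero_le_one, ← hν, ← hν, one_smul] at hB
  have hT : μ (convexHull ℝ {0, r • e, u • e + w • v} + K) ≠ ⊤ :=
    (((Set.toFinite _).isCompact_convexHull ℝ).add hK).measure_ne_top
  have hS : μ (segment ℝ 0 (r • e) + K) ≠ ⊤ := (isCompact_segment_add hK 0 _).measure_ne_top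
  have hKf : μ K ≠ ⊤ := hK.measure_ne_top
  have hA' : μ.real (segment ℝ 0 (r • e) + K) + r * w / 4 * N.toReal ≤
      μ.real (convexHull ℝ {0, r • e, u • e + w • v} + K) := by
    have := ENNReal.toReal_mono hT hA
    rw [ENNReal.toReal_add hS (ENNReal.mul_ne_top ENNReal.ofReal_ne_top hNfin),
      ENNReal.toReal_mul, ENNReal.toReal_ofReal (by positivity)] at this
    exact this
  have hB' : gr μ K e ≤ 2 * N.toReal := by
    have := ENNReal.toReal_mono (ENNReal.add_ne_top.2 ⟨hKf, ENNReal.mul_ne_top (by simp) hNfin⟩) hB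
    rw [ENNReal.toReal_add hKf (ENNReal.mul_ne_top (by simp) hNfin), ENNReal.toReal_mul] at this
    simp only [ENNReal.toReal_ofNat] at this
    rw [gr, measureReal_def, measureReal_def]
    linarith
  have hrw : 0 ≤ r * w / 8 := by positivity
  nlinarith [mul_le_mul_of_nonneg_left hB' hrw]

end Pool.Agent.Lib.MP_c8b24c_co
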