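import Mathlib
import Pool.Agent.Lib.MP_c8b24c_co.Geom

set_option autoImplicit false
set_option linter.unusedSectionVars false

open Set MeasureTheory Pointwise Topology
open scoped ENNReal

namespace Pool.Agent.Lib.MP_c8b24c_co

variable {E : Type*} [NormedAddCommGroup E] [NormedSpace ℝ E] [FiniteDimensional ℝ E]
  [MeasurableSpace E] [BorelSpace E]

/-- Convex bodies. -/
structure IsBody (K : Set E) : Prop where
  compact : IsCompact K
  convex : Convex ℝ K
  int : (interior K).Nonempty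

namespace IsBody

variable {K : Set E}

lemma nonempty (h : IsBody K) : K.Nonempty := h.int.mono interior_subset

/-- The Minkowski norm of the difference body. -/
noncomputable def N (K : Set E) (x : E) : ℝ := gauge (K - K) x

lemma sub_mem_nhds (h : IsBody K) : (K - K) ∈ 𝓝 (0 : E) := by
  obtain ⟨k, hk⟩ := h.int
  have h1 : interior K - K ∈ 𝓝 (0 : E) := by
    apply (isOpen_interior.sub_right).mem_nhds
    exact ⟨k, hk, k, interior_subset hk, sub_self k⟩
  exact Filter.mem_of_superset h1 (sub_subset_sub_right interior_subset)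

lemma sub_convex (h : IsBody K) : Convex ℝ (K - K) := h.convex.sub h.convex

lemma sub_compact (h : IsBody K) : IsCompact (K - K) := by
  rw [sub_eq_add_neg]
  exact h.compact.add h.compact.neg

lemma sub_absorbent (h : IsBody K) : Absorbent ℝ (K - K) := absorbent_nhds_zero h.sub_mem_nhds

lemma N_nonneg (x : E) : 0 ≤ N K x := gauge_nonneg x

lemma N_add (h : IsBody K) (x y : E) : N K (x + y) ≤ N K x + N K y :=
  gauge_add_le h.sub_convex h.sub_absorbent x y

lemma N_neg (x : E) : N K (-x) = N K x := by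
  apply gauge_neg
  rintro _ ⟨a, ha, b, hb, rfl⟩
  exact ⟨b, hb, a, ha, by simp⟩

lemma N_smul_nonneg {t : ℝ} (ht : 0 ≤ t) (x : E) : N K (t • x) = t * N K x := by
  unfold N
  rw [gauge_smul_of_nonneg ht, smul_eq_mul]

lemma N_smul (t : ℝ) (x : E) : N K (t • x) = |t| * N K x := by
  rcases le_total 0 t with ht | ht
  · rw [N_smul_nonneg ht, abs_of_nonneg ht]
  · have : t • x = -((-t) • x) := by simp
    rw [this, N_neg, N_smul_nonneg (by linarith), abs_of_nonpos ht]

lemma N_zero : N K (0 : E) = 0 := gauge_zero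

lemma N_sub (h : IsBody K) (x y : E) : N K (x - y) ≤ N K x + N K y := by
  rw [sub_eq_add_neg]
  refine (h.N_add _ _).trans ?_
  rw [N_neg]

lemma N_sub_comm (x y : E) : N K (x - y) = N K (y - x) := by
  rw [← N_neg, neg_sub]

lemma N_pos (h : IsBody K) {x : E} (hx : x ≠ 0) : 0 < N K x := by
  unfold N
  rw [gauge_pos h.sub_absorbent (NormedSpace.isVonNBounded_of_isBounded ℝ h.sub_compact.isBounded)]
  exact hx

lemma N_eq_zero (h : IsBody K) {x : E} : N K x = 0 ↔ x = 0 := by
  constructor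
  · intro hx
    by_contra hne
    exact (h.N_pos hne).ne' hx
  · rintro rfl
    exact N_zero

lemma N_le_one {x y : E} (hx : x ∈ K) (hy : y ∈ K) : N K (x - y) ≤ 1 :=
  gauge_le_one_of_mem (sub_mem_sub hx hy)

lemma N_continuous (h : IsBody K) : Continuous (N K) :=
  continuous_gauge h.sub_convex h.sub_mem_nhds

lemma le_N (h : IsBody K) {ℓ : E →ₗ[ℝ] ℝ} (hℓ : ∀ x ∈ K, ∀ y ∈ K, ℓ (x - y) ≤ 1) (z : E) :
    ℓ z ≤ N K z := by
  refine le_of_forall_pos_lt_add fun ε hε => ?_
  obtain ⟨a, ha, ha', _, ⟨x, hx, y, hy, rfl⟩, rfl⟩ :=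
    exists_lt_of_gauge_lt h.sub_absorbent (lt_add_of_pos_right (gauge (K - K) z) hε)
  rw [map_smul, smul_eq_mul]
  have := hℓ x hx y hy
  calc a * ℓ (x - y) ≤ a * 1 := mul_le_mul_of_nonneg_left this ha.le
    _ < _ := by rw [mul_one]; exact ha'

lemma norming (h : IsBody K) {e : E} (he : N K e = 1) :
    ∃ ℓ : E →ₗ[ℝ] ℝ, ℓ e = 1 ∧ ∀ x, ℓ x ≤ N K x := by
  have hne : e ≠ 0 := by
    rintro rfl
    rw [N_zero] at he
    norm_num at he
  obtain ⟨g, hg1, hg2⟩ := exists_extension_of_le_sublinear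
    (LinearPMap.mkSpanSingleton e (1 : ℝ) hne) (N K)
    (fun c hc x => N_smul_nonneg hc.le x) (fun x y => h.N_add x y) (by
      rintro ⟨x, hx⟩
      obtain ⟨c, rfl⟩ := Submodule.mem_span_singleton.1 hx
      have h1 : (LinearPMap.mkSpanSingleton e (1 : ℝ) hne : E →ₗ.[ℝ] ℝ) ⟨c • e, hx⟩ = c := by
        have := LinearPMap.mkSpanSingleton'_apply (σ := RingHom.id ℝ) e (1 : ℝ)
          (fun c hc => (smul_eq_zero.1 hc).elim (fun hc => by rw [hc, RingHom.map_zero, zero_smul])
            fun hx' => absurd hx' hne) c hx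
        rw [this]
        simp
      rw [h1]
      simp only [N_smul, he, mul_one]
      exact le_abs_self c)
  refine ⟨g, ?_, hg2⟩
  have h1 := hg1 ⟨e, Submodule.mem_span_singleton_self e⟩
  rw [LinearPMap.mkSpanSingleton_apply] at h1
  exact h1

lemma abs_le_N {ℓ : E →ₗ[ℝ] ℝ} (hℓ : ∀ x, ℓ x ≤ N K x) (x : E) : |ℓ x| ≤ N K x := by
  rw [abs_le]
  constructor
  · have := hℓ (-x)
    rw [N_neg, map_neg] at this
    linarith
  · exact hℓ x

/-- Disjoint interiors of translates means distance at least one. -/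
lemma one_le_N_of_disjoint (h : IsBody K) {x y : E}
    (hd : Disjoint (interior (x +ᵥ K)) (interior (y +ᵥ K))) : 1 ≤ N K (x - y) := by
  by_contra hcon
  push Not at hcon
  obtain ⟨s, hs0, hs1, _, ⟨a, ha, b, hb, rfl⟩, hxy⟩ := exists_lt_of_gauge_lt h.sub_absorbent hcon
  obtain ⟨k, hk⟩ := h.int
  simp only at hxy
  have h1 : s • b + (1 - s) • k ∈ interior K :=
    h.convex.combo_self_interior_mem_interior hb hk hs0.le (by linarith) (by ring)
  have h2 : s • a + (1 - s) • k ∈ interior K :=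
    h.convex.combo_self_interior_mem_interior ha hk hs0.le (by linarith) (by ring)
  have h3 : x + (s • b + (1 - s) • k) = y + (s • a + (1 - s) • k) := by
    have : x = y + s • (a - b) := by rw [hxy]; abel
    rw [this, smul_sub]
    abel
  rw [Set.disjoint_left] at hd
  have hx : interior (x +ᵥ K) = x +ᵥ interior K := interior_vadd x K
  have hy : interior (y +ᵥ K) = y +ᵥ interior K := interior_vadd y K
  rw [hx, hy] at hd
  exact hd (vadd_mem_vadd_set h1) (by
    rw [vadd_eq_add, h3, ← vadd_eq_add]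
    exact vadd_mem_vadd_set h2)

end IsBody

end Pool.Agent.Lib.MP_c8b24c_co
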