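import Mathlib
import Pool.Agent.Lib.MP_c8b24c_co.Norm

set_option autoImplicit false
set_option linter.unusedSectionVars false

open Set MeasureTheory Pointwise Topology
open scoped ENNReal

namespace Pool.Agent.Lib.MP_c8b24c_co

variable {E : Type*} [NormedAddCommGroup E] [NormedSpace ℝ E] [FiniteDimensional ℝ E]
  [MeasurableSpace E] [BorelSpace E]

open IsBody

variable (μ : Measure E) [μ.IsAddHaarMeasure] {K : Set E}

lemma real_mono {A B : Set E} (hB : IsCompact B) (h : A ⊆ B) : μ.real A ≤ μ.real B :=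
  measureReal_mono h hB.measure_ne_top

lemma gr_nonneg (hK : IsBody K) (z : E) : 0 ≤ gr μ K z := by
  unfold gr
  have : K ⊆ segment ℝ 0 z + K := by
    intro x hx
    exact ⟨0, left_mem_segment ℝ 0 z, x, hx, zero_add x⟩
  have := real_mono μ (isCompact_segment_add hK.compact 0 z) this
  linarith

/-- Triangle lemma in terms of the Minkowski norm. -/
lemma tri_N (hK : IsBody K) {e : E} (he : N K e = 1) {ℓ : E →ₗ[ℝ] ℝ} (hℓ1 : ℓ e = 1)
    (hℓ : ∀ x, ℓ x ≤ N K x) {r : ℝ} (hr : 0 ≤ r) (b : E) :
    μ.real (segment ℝ 0 (r • e) + K) + r * N K (b - ℓ b • e) / 8 * gr μ K e ≤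
      μ.real (convexHull ℝ {0, r • e, b} + K) := by
  have hcomp : IsCompact (convexHull ℝ {0, r • e, b} + K) :=
    ((Set.toFinite _).isCompact_convexHull ℝ).add hK.compact
  have hsub : segment ℝ 0 (r • e) + K ⊆ convexHull ℝ {0, r • e, b} + K := by
    apply add_subset_add_right
    rw [← convexHull_pair]
    apply convexHull_mono
    intro x hx
    simp only [mem_insert_iff, mem_singleton_iff] at hx ⊢
    tauto
  by_cases hv : b - ℓ b • e = 0
  · rw [hv, N_zero]
    simp only [mul_zero, zero_div, zero_mul, add_zero]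
    exact real_mono μ hcomp hsub
  have hw : 0 < N K (b - ℓ b • e) := hK.N_pos hv
  set w := N K (b - ℓ b • e) with hwdef
  set v : E := w⁻¹ • (b - ℓ b • e) with hvdef
  have hNv : N K v = 1 := by
    rw [hvdef, N_smul_nonneg (by positivity), ← hwdef]
    field_simp
  have hℓv : ℓ v = 0 := by
    rw [hvdef]
    simp [hℓ1]
  obtain ⟨m₀, hm1, hm2⟩ := hK.norming hNv
  set m : E →ₗ[ℝ] ℝ := m₀ - (m₀ e) • ℓ with hm
  have hme : m e = 0 := by simp [hm, hℓ1]
  have hmv : m v = 1 := by simp [hm, hℓv, hm1]
  have hb : ℓ b • e + w • v = b := by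
    rw [hvdef, smul_smul, mul_inv_cancel₀ hw.ne', one_smul]
    abel
  have hme1 : |m₀ e| ≤ 1 := by
    rw [← he]; exact abs_le_N hm2 e
  have hwid : ∀ x ∈ K, ∀ y ∈ K, m (x - y) ≤ 2 := by
    intro x hx y hy
    have h1 : N K (x - y) ≤ 1 := N_le_one hx hy
    have h2 : m₀ (x - y) ≤ 1 := (hm2 _).trans h1
    have h3 : |ℓ (x - y)| ≤ 1 := (abs_le_N hℓ _).trans h1
    have h4 : |m₀ e * ℓ (x - y)| ≤ 1 := by
      rw [abs_mul]
      calc |m₀ e| * |ℓ (x - y)| ≤ 1 * 1 := mul_le_mul hme1 h3 (abs_nonneg _) zero_le_one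
        _ = 1 := one_mul 1
    have h5 : m (x - y) = m₀ (x - y) - m₀ e * ℓ (x - y) := by simp [hm]
    rw [h5]
    have := (abs_le.1 h4).1
    linarith
  have key := triangle μ hℓ1 hℓv hme hmv hK.compact hK.convex hwid hr hw.le (ℓ b)
  rw [hb] at key
  exact key

/-- Points of the line that are pairwise `σ`-separated in an interval. -/
lemma sep_card {ι : Type*} [DecidableEq ι] (A : Finset ι) (hA : A.Nonempty) (f : ι → ℝ) {a b σ : ℝ} (hσ : 0 < σ)
    (hab : ∀ i ∈ A, a ≤ f i ∧ f i ≤ b) (hsep : ∀ i ∈ A, ∀ j ∈ A, i ≠ j → σ ≤ |f i - f j|) :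
    ((A.card : ℝ) - 1) * σ ≤ b - a := by
  obtain ⟨i₀, hi₀⟩ := hA
  have hba : 0 ≤ b - a := by linarith [(hab i₀ hi₀).1, (hab i₀ hi₀).2]
  have hmaps : ∀ i ∈ A, ⌊(f i - a) / σ⌋₊ ∈ Finset.range (⌊(b - a) / σ⌋₊ + 1) := by
    intro i hi
    rw [Finset.mem_range, Nat.lt_succ_iff]
    apply Nat.floor_le_floor
    apply div_le_div_of_nonneg_right _ hσ.le
    linarith [(hab i hi).2]
  have hinj : Set.InjOn (fun i => ⌊(f i - a) / σ⌋₊) A := by
    intro i hi j hj hij
    by_contra hne
    have h1 := hsep i hi j hj hne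
    have h2 : 0 ≤ (f i - a) / σ := div_nonneg (by linarith [(hab i hi).1]) hσ.le
    have h3 : 0 ≤ (f j - a) / σ := div_nonneg (by linarith [(hab j hj).1]) hσ.le
    have h4 := Nat.floor_le h2
    have h5 := Nat.lt_floor_add_one ((f i - a) / σ)
    have h6 := Nat.floor_le h3
    have h7 := Nat.lt_floor_add_one ((f j - a) / σ)
    simp only at hij
    rw [hij] at h4 h5
    have h8 : |(f i - a) / σ - (f j - a) / σ| < 1 := by
      rw [abs_lt]; constructor <;> linarith
    have h9 : (f i - a) / σ - (f j - a) / σ = (f i - f j) / σ := by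
      field_simp; ring
    rw [h9, abs_div, abs_of_pos hσ, div_lt_one hσ] at h8
    linarith
  have hcard := Finset.card_le_card_of_injOn _ hmaps hinj
  rw [Finset.card_range] at hcard
  have h1 : ((A.card : ℝ) - 1) ≤ ⌊(b - a) / σ⌋₊ := by
    have : (A.card : ℝ) ≤ (⌊(b - a) / σ⌋₊ : ℝ) + 1 := by exact_mod_cast hcard
    linarith
  have h2 := Nat.floor_le (div_nonneg hba hσ.le)
  have h3 : ((A.card : ℝ) - 1) ≤ (b - a) / σ := h1.trans h2
  rwa [le_div_iff₀ hσ] at h3

/-! ### Unit vectors -/

/-- The unit vector from `x` to `y`. -/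
noncomputable def dir (K : Set E) (x y : E) : E := (N K (y - x))⁻¹ • (y - x)

lemma N_dir {x y : E} (h : 0 < N K (y - x)) : N K (dir K x y) = 1 := by
  unfold dir
  rw [N_smul_nonneg (by positivity)]
  field_simp

lemma smul_dir {x y : E} (h : 0 < N K (y - x)) : N K (y - x) • dir K x y = y - x := by
  unfold dir
  rw [smul_smul, mul_inv_cancel₀ h.ne', one_smul]

/-- Quantitative alternative: nearly parallel unit vectors. -/
lemma near_parallel (hK : IsBody K) {e f : E} (he : N K e = 1) (hf : N K f = 1) {a δ : ℝ}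
    (h : N K (f - a • e) < δ) : N K (f - e) ≤ 2 * δ ∨ N K (f + e) ≤ 2 * δ := by
  have h1 : 1 - δ ≤ |a| := by
    have h2 : N K f ≤ N K (f - a • e) + N K (a • e) := by
      have := hK.N_add (f - a • e) (a • e)
      rwa [sub_add_cancel] at this
    rw [N_smul, he, hf] at h2
    linarith
  have h3 : |a| ≤ 1 + δ := by
    have h2 : N K (a • e) ≤ N K f + N K (f - a • e) := by
      have := hK.N_sub f (f - a • e)
      rwa [sub_sub_cancel] at this
    rw [N_smul, he, hf] at h2
    linarith
  rcases le_total 0 a with ha | ha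
  · left
    rw [abs_of_nonneg ha] at h1 h3
    have h4 : f - e = (f - a • e) + (a - 1) • e := by rw [sub_smul, one_smul]; abel
    rw [h4]
    refine (hK.N_add _ _).trans ?_
    rw [N_smul, he, mul_one]
    have : |a - 1| ≤ δ := by rw [abs_le]; constructor <;> linarith
    linarith
  · right
    rw [abs_of_nonpos ha] at h1 h3
    have h4 : f + e = (f - a • e) + (a + 1) • e := by rw [add_smul, one_smul]; abel
    rw [h4]
    refine (hK.N_add _ _).trans ?_
    rw [N_smul, he, mul_one]
    have : |a + 1| ≤ δ := by rw [abs_le]; constructor <;> linarith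
    linarith

/-- The key geometric fact about poor points. -/
lemma poor_ell (hK : IsBody K) {δ R : ℝ} (hδ0 : 0 ≤ δ) (hδ : δ ≤ 1 / 60)
    {ℓ : E →ₗ[ℝ] ℝ} (hℓ : ∀ x, ℓ x ≤ N K x) {x a b : E}
    (hxa : 0 < N K (a - x)) (hxb : 0 < N K (b - x)) (hxaR : N K (a - x) ≤ R)
    (hxbR : N K (b - x) ≤ R) (hab : N K (b - a) = R) (hℓab : ℓ (b - a) = R)
    (hpar : N K (dir K x b - dir K x a) ≤ 2 * δ ∨ N K (dir K x b + dir K x a) ≤ 2 * δ)
    {c : E} (hxc : 0 < N K (c - x))
    (hparc : N K (dir K x c - dir K x b) ≤ 2 * δ ∨ N K (dir K x c + dir K x b) ≤ 2 * δ) :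
    (1 - 6 * δ) * N K (c - x) ≤ |ℓ (c - x)| := by
  set p := dir K x a with hp
  set q := dir K x b with hq
  set g := dir K x c with hg
  set s := N K (a - x) with hs
  set s' := N K (b - x) with hs'
  have hp1 : s • p = a - x := smul_dir hxa
  have hq1 : s' • q = b - x := smul_dir hxb
  have hg1 : N K (c - x) • g = c - x := smul_dir hxc
  have hNp : N K p = 1 := N_dir hxa
  have hNq : N K q = 1 := N_dir hxb
  have hba : b - a = s' • q - s • p := by rw [hp1, hq1]; abel
  have hR : 0 < R := lt_of_lt_of_le hxa hxaR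
  -- the case of equal directions is impossible
  have hopp : N K (q + p) ≤ 2 * δ := by
    rcases hpar with h | h
    · exfalso
      rcases le_total s s' with hss | hss
      · have h1 : b - a = (s' - s) • q + s • (q - p) := by
          rw [hba, sub_smul, smul_sub]; abel
        have h2 : N K (b - a) ≤ (s' - s) + s * (2 * δ) := by
          rw [h1]
          refine (hK.N_add _ _).trans ?_
          rw [N_smul_nonneg (by linarith), hNq, mul_one, N_smul_nonneg hxa.le]
          have := mul_le_mul_of_nonneg_left h hxa.le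
          linarith
        rw [hab] at h2
        nlinarith
      · have h1 : b - a = s' • (q - p) - (s - s') • p := by
          rw [hba, sub_smul, smul_sub]; abel
        have h2 : N K (b - a) ≤ s' * (2 * δ) + (s - s') := by
          rw [h1]
          refine (hK.N_sub _ _).trans ?_
          rw [N_smul_nonneg (by linarith : (0:ℝ) ≤ s - s'), hNp, mul_one, N_smul_nonneg hxb.le]
          have := mul_le_mul_of_nonneg_left h hxb.le
          linarith
        rw [hab] at h2
        nlinarith
    · exact h
  -- the functional is large on q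
  have hℓq : 1 - 4 * δ ≤ ℓ q := by
    have h1 : |ℓ (q + p)| ≤ 2 * δ := (abs_le_N hℓ _).trans hopp
    have h2 : R = (s + s') * ℓ q - s * ℓ (q + p) := by
      rw [← hℓab, hba]
      simp only [map_sub, map_smul, map_add, smul_eq_mul]
      ring
    have h3 : (s + s') ≤ R + 2 * δ * s := by
      have h4 : (s + s') • q = (b - a) + s • (q + p) := by
        rw [hba, add_smul, smul_add]; abel
      have h5 : N K ((s + s') • q) ≤ R + s * (2 * δ) := by
        rw [h4]
        refine (hK.N_add _ _).trans ?_
        rw [hab, N_smul_nonneg hxa.le]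
        have := mul_le_mul_of_nonneg_left hopp hxa.le
        linarith
      rw [N_smul_nonneg (by linarith), hNq, mul_one] at h5
      linarith
    have h6 : R - 2 * δ * s ≤ (s + s') * ℓ q := by
      have := (abs_le.1 h1).1
      nlinarith [mul_le_mul_of_nonneg_left this hxa.le]
    by_contra hcon
    push Not at hcon
    have h7 : (s + s') * ℓ q < (s + s') * (1 - 4 * δ) :=
      mul_lt_mul_of_pos_left hcon (by linarith)
    have h8 : (s + s') * (1 - 4 * δ) ≤ (R + 2 * δ * s) * (1 - 4 * δ) :=
      mul_le_mul_of_nonneg_right h3 (by linarith)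
    have h9 : 2 * δ * s ≤ 2 * δ * R := mul_le_mul_of_nonneg_left hxaR (by linarith)
    nlinarith [mul_nonneg (mul_nonneg hδ0 hδ0) hR.le, mul_nonneg hδ0 hR.le]
  have hgl : 1 - 6 * δ ≤ |ℓ g| := by
    rcases hparc with h | h
    · have h1 : |ℓ (g - q)| ≤ 2 * δ := (abs_le_N hℓ _).trans h
      rw [map_sub] at h1
      have h2 := (abs_le.1 h1).1
      exact le_trans (by linarith) (le_abs_self _)
    · have h1 : |ℓ (g + q)| ≤ 2 * δ := (abs_le_N hℓ _).trans h
      rw [map_add] at h1
      have h2 := (abs_le.1 h1).2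
      exact le_trans (by linarith) (neg_le_abs _)
  rw [← hg1, map_smul, smul_eq_mul, abs_mul, abs_of_pos hxc]
  have h10 : N K (N K (c - x) • g) = N K (c - x) := by rw [hg1]
  rw [h10, mul_comm]
  exact mul_le_mul_of_nonneg_left hgl hxc.le

/-- Rich points carry a triangle of large volume in their cell. -/
lemma rich_cell (hK : IsBody K) {Z L τ δ : ℝ} (hZ : ∀ e, N K e = 1 → Z ≤ gr μ K e)
    (hZ0 : 0 ≤ Z) (hτ : 0 < τ) (hδ : δ = 16 * L / τ ^ 2) (hτL : τ ≤ L) {C : Set E}
    (hC : Convex ℝ C) {x a b : E} (hx : x ∈ C) (ha : a ∈ C) (hb : b ∈ C)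
    (hxa : L ≤ N K (a - x)) (hxb : L ≤ N K (b - x)) {ℓ : E →ₗ[ℝ] ℝ}
    (hℓ1 : ℓ (dir K x a) = 1) (hℓ : ∀ z, ℓ z ≤ N K z)
    (hδ2 : δ ≤ N K (dir K x b - ℓ (dir K x b) • dir K x a)) :
    ∃ T : Set E, IsCompact T ∧ T ⊆ C ∧ (∀ t ∈ T, N K (t - x) ≤ τ) ∧
      2 * L * Z ≤ μ.real (T + K) := by
  have hL : 0 < L := lt_of_lt_of_le hτ hτL
  have hxa0 : 0 < N K (a - x) := lt_of_lt_of_le hL hxa
  have hxb0 : 0 < N K (b - x) := lt_of_lt_of_le hL hxb
  set e := dir K x a with he
  set f := dir K x b with hf
  have hNe : N K e = 1 := N_dir hxa0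
  have hNf : N K f = 1 := N_dir hxb0
  set T₀ : Set E := convexHull ℝ {0, τ • e, τ • f} with hT₀
  have hT₀c : IsCompact T₀ := (Set.toFinite _).isCompact_convexHull ℝ
  refine ⟨{x} + T₀, isCompact_singleton.add hT₀c, ?_, ?_, ?_⟩
  · have h1 : {x} + T₀ = convexHull ℝ ({x} + {0, τ • e, τ • f}) := by
      rw [convexHull_add, convexHull_singleton]
    rw [h1]
    apply convexHull_min _ hC
    rintro _ ⟨x', hx', y, hy, rfl⟩
    simp only [mem_singleton_iff] at hx'
    subst hx'
    simp only [mem_insert_iff, mem_singleton_iff] at hy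
    have key : ∀ c ∈ C, L ≤ N K (c - x') → 0 < N K (c - x') → x' + τ • dir K x' c ∈ C := by
      intro c hc h2 h3
      have h4 : x' + τ • dir K x' c = (1 - τ / N K (c - x')) • x' + (τ / N K (c - x')) • c := by
        unfold dir
        rw [smul_smul, ← div_eq_mul_inv, smul_sub, sub_smul, one_smul]
        abel
      rw [h4]
      apply hC hx hc
      · rw [sub_nonneg, div_le_one h3]; linarith
      · positivity
      · ring
    rcases hy with rfl | rfl | rfl
    · simpa using hx
    · exact key a ha hxa hxa0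
    · exact key b hb hxb hxb0
  · rintro _ ⟨x', hx', y, hy, rfl⟩
    simp only [mem_singleton_iff] at hx'
    subst hx'
    have h1 : x' + y - x' = y := by abel
    simp only
    rw [h1]
    have h2 : Convex ℝ {z : E | N K z ≤ τ} := by
      intro u hu v hv s t hs ht hst
      simp only [mem_ofPred_eq] at hu hv ⊢
      refine (hK.N_add _ _).trans ?_
      rw [N_smul_nonneg hs, N_smul_nonneg ht]
      nlinarith
    have h3 : T₀ ⊆ {z : E | N K z ≤ τ} := by
      apply convexHull_min _ h2
      rintro z hz
      simp only [mem_insert_iff, mem_singleton_iff] at hz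
      rcases hz with rfl | rfl | rfl
      · simp only [mem_ofPred_eq, N_zero]; exact hτ.le
      · simp only [mem_ofPred_eq, N_smul_nonneg hτ.le, hNe, mul_one]; exact le_rfl
      · simp only [mem_ofPred_eq, N_smul_nonneg hτ.le, hNf, mul_one]; exact le_rfl
    exact h3 hy
  · have h1 : μ.real ({x} + T₀ + K) = μ.real (T₀ + K) := by
      have : ({x} + T₀ + K) = (fun z => x + z) '' (T₀ + K) := by
        rw [add_assoc, singleton_add]
      rw [this, measureReal_def, measureReal_def, image_add_left, measure_preimage_add]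
    rw [h1]
    have h2 := tri_N μ hK hNe hℓ1 hℓ hτ.le (τ • f)
    have h3 : N K (τ • f - ℓ (τ • f) • e) = τ * N K (f - ℓ f • e) := by
      rw [map_smul, smul_eq_mul, mul_smul, ← smul_sub, N_smul_nonneg hτ.le]
    rw [h3] at h2
    have h4 : 0 ≤ μ.real (segment ℝ 0 (τ • e) + K) := measureReal_nonneg
    have h5 : τ * (τ * δ) / 8 * Z ≤ τ * (τ * N K (f - ℓ f • e)) / 8 * gr μ K e := by
      have h6 := hZ e hNe
      have h7 : τ * (τ * δ) / 8 ≤ τ * (τ * N K (f - ℓ f • e)) / 8 := by gcongr
      have h8 : 0 ≤ τ * (τ * N K (f - ℓ f • e)) / 8 := by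
        have := N_nonneg (K := K) (f - ℓ f • e)
        positivity
      calc τ * (τ * δ) / 8 * Z ≤ τ * (τ * N K (f - ℓ f • e)) / 8 * Z :=
            mul_le_mul_of_nonneg_right h7 hZ0
        _ ≤ _ := mul_le_mul_of_nonneg_left h6 h8
    have h6 : τ * (τ * δ) / 8 * Z = 2 * L * Z := by
      rw [hδ]
      field_simp
      ring
    rw [h6] at h5
    linarith

/-- **Main theorem, scaled form.** -/
theorem scaled_main (hK : IsBody K) {Z L : ℝ} (hL : 4000 ≤ L)
    (hZ : ∀ e, N K e = 1 → Z ≤ gr μ K e) (hKZ : μ.real K ≤ Z) (hK0 : 0 < μ.real K)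
    {ι : Type*} [Fintype ι] [DecidableEq ι] (y : ι → E)
    (hsep : ∀ i j, i ≠ j → L ≤ N K (y i - y j)) (hcard : 2 ≤ Fintype.card ι) :
    μ.real K + ((Fintype.card ι : ℝ) - 1) * L * Z ≤ μ.real (convexHull ℝ (range y) + K) ∧
    (μ.real (convexHull ℝ (range y) + K) = μ.real K + ((Fintype.card ι : ℝ) - 1) * L * Z →
      ∃ a e, N K e = 1 ∧ gr μ K e = Z ∧
        convexHull ℝ (range y) = segment ℝ a (a + (((Fintype.card ι : ℝ) - 1) * L) • e)) := by
  classical
  have hZpos : 0 < Z := lt_of_lt_of_le hK0 hKZ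
  have hL0 : 0 < L := by linarith
  set n : ℝ := (Fintype.card ι : ℝ) with hn
  have hn2 : 2 ≤ n := by rw [hn]; exact_mod_cast hcard
  set C := convexHull ℝ (range y) with hC
  have hCc : IsCompact C := (Set.finite_range y).isCompact_convexHull ℝ
  have hCconv : Convex ℝ C := convex_convexHull ℝ _
  have hyC : ∀ i, y i ∈ C := fun i => subset_convexHull ℝ _ (mem_range_self i)
  have hCK : IsCompact (C + K) := hCc.add hK.compact
  have : Nonempty ι := Fintype.card_pos_iff.1 (by omega)
  -- diametral pair
  obtain ⟨⟨i₀, i₁⟩, hmax⟩ := Finite.exists_max (fun p : ι × ι => N K (y p.2 - y p.1))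
  set R := N K (y i₁ - y i₀) with hR
  have hmaxR : ∀ i j, N K (y j - y i) ≤ R := fun i j => hmax (i, j)
  obtain ⟨j₀, j₁, hj⟩ := Fintype.exists_pair_of_one_lt_card (by omega : 1 < Fintype.card ι)
  have hRL : L ≤ R := (hsep j₁ j₀ hj.symm).trans (hmaxR j₀ j₁)
  have hR0 : 0 < R := by linarith
  have hi01 : i₀ ≠ i₁ := by
    rintro h
    rw [hR, h, sub_self, N_zero] at hR0
    exact lt_irrefl _ hR0
  set e := dir K (y i₀) (y i₁) with he
  have hNe : N K e = 1 := N_dir hR0
  have hRe : R • e = y i₁ - y i₀ := smul_dir hR0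
  obtain ⟨ℓ, hℓ1, hℓ⟩ := hK.norming hNe
  have hℓR : ℓ (y i₁ - y i₀) = R := by rw [← hRe, map_smul, hℓ1, smul_eq_mul, mul_one]
  have hs : ∀ i, 0 ≤ ℓ (y i - y i₀) ∧ ℓ (y i - y i₀) ≤ R := by
    intro i
    constructor
    · have h1 := (hℓ (y i₁ - y i)).trans (hmaxR i i₁)
      have h2 : ℓ (y i₁ - y i) = R - ℓ (y i - y i₀) := by
        rw [← hℓR]; simp
      linarith
    · exact (hℓ _).trans (hmaxR i₀ i)
  -- basic lower bound by the segment
  have hgr0 : Z ≤ gr μ K e := hZ e hNe
  have htrans : ∀ S : Set E, μ.real ({y i₀} + S) = μ.real S := by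
    intro S
    rw [measureReal_def, measureReal_def, singleton_add, image_add_left, measure_preimage_add]
  rcases lt_or_ge ((n - 1) * L) (5 / 2 * R) with hA | hB
  · -- few points
    obtain ⟨i₂, hi₂⟩ := Finite.exists_max (fun i => N K ((y i - y i₀) - ℓ (y i - y i₀) • e))
    set W := N K ((y i₂ - y i₀) - ℓ (y i₂ - y i₀) • e) with hW
    have hW0 : 0 ≤ W := N_nonneg _
    -- number of points
    have hcount : (n - 1) * L ≤ R + 2 * (n - 1) * W := by
      rcases le_or_gt L (2 * W) with h | h
      · nlinarith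
      · have h1 := sep_card (Finset.univ : Finset ι) Finset.univ_nonempty
          (fun i => ℓ (y i - y i₀)) (a := 0) (b := R) (σ := L - 2 * W) (by linarith)
          (fun i _ => hs i) (by
            intro i _ j _ hij
            have h2 := hsep i j hij
            have h3 : y i - y j = (ℓ (y i - y i₀) - ℓ (y j - y i₀)) • e +
                (((y i - y i₀) - ℓ (y i - y i₀) • e) - ((y j - y i₀) - ℓ (y j - y i₀) • e)) := by
              rw [sub_smul]; abel
            have h4 : N K (y i - y j) ≤ |ℓ (y i - y i₀) - ℓ (y j - y i₀)| + (W + W) := by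
              rw [h3]
              refine (hK.N_add _ _).trans ?_
              rw [N_smul, hNe, mul_one]
              have h5 := hK.N_sub ((y i - y i₀) - ℓ (y i - y i₀) • e)
                ((y j - y i₀) - ℓ (y j - y i₀) • e)
              have h6 := hi₂ i
              have h7 := hi₂ j
              linarith
            linarith)
        rw [Finset.card_univ] at h1
        rw [← hn] at h1
        nlinarith
    -- volume bound
    have hvol : μ.real K + R * gr μ K e + R * W / 8 * gr μ K e ≤ μ.real (C + K) := by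
      have h1 := tri_N μ hK hNe hℓ1 hℓ hR0.le (y i₂ - y i₀)
      rw [real_segment_add μ hK.compact hK.convex e hR0.le] at h1
      refine h1.trans ?_
      rw [← htrans (convexHull ℝ {0, R • e, y i₂ - y i₀} + K)]
      apply real_mono μ hCK
      rw [← add_assoc]
      apply add_subset_add_right
      have h2 : {y i₀} + convexHull ℝ {0, R • e, y i₂ - y i₀} =
          convexHull ℝ ({y i₀} + {0, R • e, y i₂ - y i₀}) := by
        rw [convexHull_add, convexHull_singleton]
      rw [h2]
      apply convexHull_min _ hCconv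
      rintro _ ⟨x', hx', z, hz, rfl⟩
      simp only [mem_singleton_iff] at hx'
      subst hx'
      simp only [mem_insert_iff, mem_singleton_iff] at hz
      rcases hz with rfl | rfl | rfl
      · simpa using hyC i₀
      · rw [hRe]; simpa using hyC i₁
      · simpa using hyC i₂
    have hkey : (n - 1) * L * Z ≤ R * Z + R * W / 8 * Z ∧
        (0 < W → (n - 1) * L * Z < R * Z + R * W / 8 * Z) := by
      have h1 : 2 * (n - 1) * W * L ≤ 5 * R * W := by nlinarith
      have h2 : 2 * (n - 1) * W ≤ R * W / 8 ∧ (0 < W → 2 * (n - 1) * W < R * W / 8) := by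
        have h3 : 0 ≤ (n - 1) * W := mul_nonneg (by linarith) hW0
        constructor
        · nlinarith
        · intro hW1
          have h4 : 0 < (n - 1) * W := mul_pos (by linarith) hW1
          nlinarith
      constructor
      · nlinarith [h2.1]
      · intro hW1
        nlinarith [h2.2 hW1]
    have hmono1 : R * Z ≤ R * gr μ K e := mul_le_mul_of_nonneg_left hgr0 hR0.le
    have hmono2 : R * W / 8 * Z ≤ R * W / 8 * gr μ K e :=
      mul_le_mul_of_nonneg_left hgr0 (by positivity)
    constructor
    · linarith [hkey.1]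
    · intro heq
      have hWz : W = 0 := by
        by_contra hne
        have hW1 : 0 < W := lt_of_le_of_ne hW0 (Ne.symm hne)
        have := hkey.2 hW1
        linarith
      rw [hWz] at hcount hvol
      have hRle : (n - 1) * L ≤ R := by linarith
      have h1 : R * gr μ K e ≤ (n - 1) * L * Z := by
        have : R * 0 / 8 * gr μ K e = 0 := by ring
        rw [this] at hvol
        linarith
      have hgrpos : 0 < gr μ K e := lt_of_lt_of_le hZpos hgr0
      have h2 : gr μ K e = Z := by
        apply le_antisymm _ hgr0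
        by_contra hcon
        push Not at hcon
        have : R * Z < R * gr μ K e := mul_lt_mul_of_pos_left hcon hR0
        nlinarith
      have h3 : R = (n - 1) * L := by
        apply le_antisymm _ hRle
        rw [h2] at h1
        exact le_of_mul_le_mul_right h1 hZpos
      refine ⟨y i₀, e, hNe, h2, ?_⟩
      rw [← h3]
      have hline : ∀ i, y i = y i₀ + ℓ (y i - y i₀) • e := by
        intro i
        have h4 := hi₂ i
        rw [hWz] at h4
        have h5 : N K ((y i - y i₀) - ℓ (y i - y i₀) • e) = 0 := le_antisymm h4 (N_nonneg _)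
        rw [hK.N_eq_zero] at h5
        have h6 : y i - y i₀ = ℓ (y i - y i₀) • e := sub_eq_zero.1 h5
        rw [← h6]; abel
      apply Subset.antisymm
      · apply convexHull_min _ (convex_segment _ _)
        rintro _ ⟨i, rfl⟩
        rw [segment_eq_image']
        refine ⟨ℓ (y i - y i₀) / R, ⟨div_nonneg (hs i).1 hR0.le, ?_⟩, ?_⟩
        · rw [div_le_one hR0]; exact (hs i).2
        · simp only [add_sub_cancel_left, smul_smul]
          rw [div_mul_cancel₀ _ hR0.ne']
          exact (hline i).symm
      · apply hCconv.segment_subset (hyC i₀)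
        rw [hRe]
        have : y i₀ + (y i₁ - y i₀) = y i₁ := by abel
        rw [this]
        exact hyC i₁
  · -- many points
    set τ : ℝ := L / 2 - 1 with hτ
    have hτ0 : 0 < τ := by rw [hτ]; linarith
    have hτL : τ ≤ L := by rw [hτ]; linarith
    set δ : ℝ := 16 * L / τ ^ 2 with hδ
    have hδ0 : 0 ≤ δ := by positivity
    have hδ60 : δ ≤ 1 / 60 := by
      rw [hδ, div_le_iff₀ (by positivity), hτ]
      nlinarith
    set Rich : ι → Prop := fun i => ∃ T : Set E, IsCompact T ∧ T ⊆ C ∧
      (∀ t ∈ T, N K (t - y i) ≤ τ) ∧ 2 * L * Z ≤ μ.real (T + K) with hRich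
    have hposN : ∀ i j, i ≠ j → 0 < N K (y j - y i) := fun i j hij =>
      lt_of_lt_of_le hL0 (hsep j i hij.symm)
    have hpoor : ∀ i, ¬ Rich i → ∀ j k, i ≠ j → i ≠ k →
        N K (dir K (y i) (y k) - dir K (y i) (y j)) ≤ 2 * δ ∨
          N K (dir K (y i) (y k) + dir K (y i) (y j)) ≤ 2 * δ := by
      intro i hi j k hij hik
      obtain ⟨ℓ', hℓ'1, hℓ'⟩ := hK.norming (N_dir (hposN i j hij))
      by_contra hcon
      have hge : δ ≤ N K (dir K (y i) (y k) - ℓ' (dir K (y i) (y k)) • dir K (y i) (y j)) := by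
        by_contra hlt
        push Not at hlt
        exact hcon (near_parallel hK (N_dir (hposN i j hij)) (N_dir (hposN i k hik)) hlt)
      exact hi (rich_cell μ hK hZ hZpos.le hτ0 hδ hτL hCconv (hyC i) (hyC j) (hyC k)
        (hsep j i hij.symm) (hsep k i hik.symm) hℓ'1 hℓ' hge)
    set SR := Finset.univ.filter Rich with hSR
    set P := Finset.univ.filter (fun i => ¬ Rich i ∧ i ≠ i₀ ∧ i ≠ i₁) with hP
    have hcards : Fintype.card ι ≤ SR.card + (P.card + 2) := by
      have h1 : (Finset.univ : Finset ι) ⊆ SR ∪ (P ∪ {i₀, i₁}) := by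
        intro i _
        simp only [hSR, hP, Finset.mem_union, Finset.mem_filter, Finset.mem_univ, true_and,
          Finset.mem_insert, Finset.mem_singleton]
        tauto
      have h2 := Finset.card_le_card h1
      rw [Finset.card_univ] at h2
      refine h2.trans ((Finset.card_union_le _ _).trans ?_)
      gcongr
      refine (Finset.card_union_le _ _).trans ?_
      gcongr
      exact Finset.card_le_two
    -- poor points are few
    have hPfew : ((P.card : ℝ) + 1) * ((1 - 6 * δ) * L) ≤ R := by
      have hi0P : i₀ ∉ insert i₁ P := by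
        simp [hP, hi01]
      have hi1P : i₁ ∉ P := by simp [hP]
      have hdist : ∀ i ∈ P, ∀ j, i ≠ j →
          (1 - 6 * δ) * L ≤ |ℓ (y i - y i₀) - ℓ (y j - y i₀)| := by
        intro i hi j hij
        simp only [hP, Finset.mem_filter, Finset.mem_univ, true_and] at hi
        obtain ⟨hi1, hi2, hi3⟩ := hi
        have h1 := poor_ell hK hδ0 hδ60 hℓ (hposN i i₀ hi2) (hposN i i₁ hi3) (hmaxR i i₀)
          (hmaxR i i₁) hR.symm hℓR (hpoor i hi1 i₀ i₁ hi2 hi3) (hposN i j hij)
          (hpoor i hi1 i₁ j hi3 hij)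
        have h2 : ℓ (y j - y i) = -(ℓ (y i - y i₀) - ℓ (y j - y i₀)) := by
          simp
        rw [h2, abs_neg] at h1
        refine le_trans ?_ h1
        exact mul_le_mul_of_nonneg_left (hsep j i hij.symm) (by linarith)
      have h1 := sep_card (insert i₀ (insert i₁ P)) (Finset.insert_nonempty _ _)
        (fun i => ℓ (y i - y i₀)) (a := 0) (b := R) (σ := (1 - 6 * δ) * L)
        (mul_pos (by linarith) hL0) (fun i _ => hs i) (by
          intro i hi j hj hij
          by_cases hiP : i ∈ P
          · exact hdist i hiP j hij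
          · by_cases hjP : j ∈ P
            · have := hdist j hjP i hij.symm
              rwa [abs_sub_comm] at this
            · simp only [Finset.mem_insert, hiP, hjP, or_false] at hi hj
              have hRσ : (1 - 6 * δ) * L ≤ R := by nlinarith
              rcases hi with rfl | rfl
              · rcases hj with rfl | rfl
                · exact absurd rfl hij
                · simp only [sub_self, map_zero, zero_sub, abs_neg]
                  rw [hℓR, abs_of_pos hR0]; exact hRσ
              · rcases hj with rfl | rfl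
                · simp only [sub_self, map_zero, sub_zero]
                  rw [hℓR, abs_of_pos hR0]; exact hRσ
                · exact absurd rfl hij)
      rw [Finset.card_insert_of_notMem hi0P, Finset.card_insert_of_notMem hi1P] at h1
      push_cast at h1
      have h2 : (P.card : ℝ) + 1 + 1 - 1 = P.card + 1 := by ring
      rw [h2, sub_zero] at h1
      exact h1
    -- volume of the cells
    have hvol : (SR.card : ℝ) * (2 * L * Z) ≤ μ.real (C + K) := by
      have hT : ∀ i : ι, ∃ T : Set E, i ∈ SR → IsCompact T ∧ T ⊆ C ∧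
          (∀ t ∈ T, N K (t - y i) ≤ τ) ∧ 2 * L * Z ≤ μ.real (T + K) := by
        intro i
        by_cases hi : i ∈ SR
        · simp only [hSR, Finset.mem_filter, Finset.mem_univ, true_and] at hi
          obtain ⟨T, hT⟩ := hi
          exact ⟨T, fun _ => hT⟩
        · exact ⟨∅, fun h => absurd h hi⟩
      choose T hT using hT
      have hdisj : Set.PairwiseDisjoint (SR : Set ι) (fun i => T i + K) := by
        intro i hi j hj hij
        rw [Function.onFun, Set.disjoint_left]
        rintro _ ⟨t, ht, k, hk, rfl⟩ ⟨t', ht', k', hk', heq⟩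
        simp only at heq
        have h1 := (hT i hi).2.2.1 t ht
        have h2 := (hT j hj).2.2.1 t' ht'
        have h3 : t - t' = k' - k := by
          have h4 : t = t' + k' - k := by rw [heq]; abel
          rw [h4]; abel
        have h4 : N K (t - t') ≤ 1 := by rw [h3]; exact N_le_one hk' hk
        have h5 := hsep i j hij
        have h6 : y i - y j = -(t - y i) + (t - t') + (t' - y j) := by abel
        have h7 : N K (y i - y j) ≤ N K (t - y i) + N K (t - t') + N K (t' - y j) := by
          rw [h6]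
          refine (hK.N_add _ _).trans ?_
          gcongr
          refine (hK.N_add _ _).trans ?_
          rw [N_neg]
        rw [hτ] at h1 h2
        linarith
      have hcomp : ∀ i ∈ SR, IsCompact (T i + K) := fun i hi => (hT i hi).1.add hK.compact
      have h1 : μ.real (⋃ i ∈ SR, (T i + K)) = ∑ i ∈ SR, μ.real (T i + K) :=
        measureReal_biUnion_finset hdisj (fun i hi => (hcomp i hi).measurableSet)
          (fun i hi => (hcomp i hi).measure_ne_top)
      have h2 : (⋃ i ∈ SR, (T i + K)) ⊆ C + K := by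
        apply iUnion₂_subset
        intro i hi
        exact add_subset_add_right (hT i hi).2.1
      have h3 := real_mono μ hCK h2
      rw [h1] at h3
      refine le_trans ?_ h3
      rw [← nsmul_eq_mul]
      exact Finset.card_nsmul_le_sum _ _ _ (fun i hi => (hT i hi).2.2.2)
    have hcardsR : n ≤ (SR.card : ℝ) + (P.card + 2) := by
      rw [hn]; exact_mod_cast hcards
    have hP49 : (P.card : ℝ) + 1 ≤ 4 / 9 * (n - 1) := by
      have h1 : ((P.card : ℝ) + 1) * (9 / 10 * L) ≤ ((P.card : ℝ) + 1) * ((1 - 6 * δ) * L) := by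
        apply mul_le_mul_of_nonneg_left _ (by positivity)
        apply mul_le_mul_of_nonneg_right _ hL0.le
        linarith
      have h2 : ((P.card : ℝ) + 1) * (9 / 10 * L) ≤ 2 / 5 * ((n - 1) * L) := by linarith
      by_contra hcon
      push Not at hcon
      have h3 : 4 / 9 * (n - 1) * (9 / 10 * L) < ((P.card : ℝ) + 1) * (9 / 10 * L) :=
        mul_lt_mul_of_pos_right hcon (by positivity)
      nlinarith
    have hSR59 : 5 / 9 * (n - 1) ≤ (SR.card : ℝ) := by linarith
    have hstrict : μ.real K + (n - 1) * L * Z < μ.real (C + K) := by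
      have h1 : 5 / 9 * (n - 1) * (2 * L * Z) ≤ (SR.card : ℝ) * (2 * L * Z) :=
        mul_le_mul_of_nonneg_right hSR59 (by positivity)
      have h2 : 1 * 4000 * Z ≤ (n - 1) * L * Z := by
        gcongr
        · linarith
        · linarith
      have h3 : 5 / 9 * (n - 1) * (2 * L * Z) = 10 / 9 * ((n - 1) * L * Z) := by ring
      linarith
    exact ⟨hstrict.le, fun h => absurd h hstrict.ne'⟩

end Pool.Agent.Lib.MP_c8b24c_co
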