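import Mathlib
import Pool.Agent.Lib.MP_c8b24c_co.Main

set_option autoImplicit false
set_option linter.unusedSectionVars false

open Set MeasureTheory Pointwise Topology Filter
open scoped ENNReal

namespace Pool.Agent.Lib.MP_c8b24c_co

variable {E : Type*} [NormedAddCommGroup E] [NormedSpace ℝ E] [FiniteDimensional ℝ E]
  [MeasurableSpace E] [BorelSpace E]

open IsBody

variable (μ : Measure E) [μ.IsAddHaarMeasure] {K : Set E}

lemma real_singleton_add (a : E) (S : Set E) : μ.real ({a} + S) = μ.real S := by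
  rw [measureReal_def, measureReal_def, singleton_add, image_add_left, measure_preimage_add]

lemma real_smul {r : ℝ} (hr : 0 ≤ r) (S : Set E) :
    μ.real (r • S) = r ^ (Module.finrank ℝ E) * μ.real S := by
  rw [measureReal_def, Measure.addHaar_smul, ENNReal.toReal_mul, abs_of_nonneg (by positivity),
    ENNReal.toReal_ofReal (by positivity)]
  rfl

/-- Comparison of nearby segments. -/
lemma seg_compare (hK : IsBody K) : ∃ ε : ℝ, 0 < ε ∧ ∀ η : ℝ, 0 < η → ∀ z z' : E,
    ‖z - z'‖ < η * ε → μ.real (segment ℝ 0 z + K) ≤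
      (1 + η) ^ (Module.finrank ℝ E) * μ.real (segment ℝ 0 z' + K) := by
  obtain ⟨k₀, hk₀⟩ := hK.int
  obtain ⟨ε, hε, hball⟩ := Metric.isOpen_iff.1 isOpen_interior k₀ hk₀
  refine ⟨ε, hε, fun η hη z z' hzz => ?_⟩
  -- translate the body
  set K₀ : Set E := {-k₀} + K with hK₀
  have h0 : (0 : E) ∈ K₀ := ⟨-k₀, rfl, k₀, interior_subset hk₀, by simp⟩
  have hconv : Convex ℝ K₀ := (convex_singleton _).add hK.convex
  have hcomp : IsCompact K₀ := isCompact_singleton.add hK.compact
  have hε' : ∀ u : E, ‖u‖ < ε → u ∈ K₀ := by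
    intro u hu
    refine ⟨-k₀, rfl, k₀ + u, interior_subset (hball ?_), by simp⟩
    rw [Metric.mem_ball, dist_eq_norm]
    simpa using hu
  have htr : ∀ w : E, μ.real (segment ℝ 0 w + K) = μ.real (segment ℝ 0 w + K₀) := by
    intro w
    have : segment ℝ 0 w + K₀ = {-k₀} + (segment ℝ 0 w + K) := by
      rw [hK₀, ← add_assoc, ← add_assoc, add_comm (segment ℝ 0 w)]
    rw [this, real_singleton_add]
  rw [htr z, htr z', ← real_smul μ (by positivity)]
  have hcomp2 : IsCompact ((1 + η) • (segment ℝ 0 z' + K₀)) :=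
    (isCompact_segment_add hcomp 0 z').smul _
  apply real_mono μ hcomp2
  rintro _ ⟨u, hu, k, hk, rfl⟩
  rw [segment_eq_image'] at hu
  obtain ⟨s, hs, rfl⟩ := hu
  simp only [sub_zero, zero_add]
  have h1η : (0 : ℝ) < 1 + η := by linarith
  have hw : η⁻¹ • (z - z') ∈ K₀ := by
    apply hε'
    rw [norm_smul, norm_inv, Real.norm_of_nonneg hη.le, inv_mul_lt_iff₀ hη]
    exact hzz
  have hw2 : s • (η⁻¹ • (z - z')) ∈ K₀ := by
    have := hconv h0 hw (by linarith [hs.2] : (0 : ℝ) ≤ 1 - s) hs.1 (by ring)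
    simpa using this
  have hk2 : (1 + η)⁻¹ • k + (η * (1 + η)⁻¹) • (s • (η⁻¹ • (z - z'))) ∈ K₀ := by
    apply hconv hk hw2 (by positivity) (by positivity)
    field_simp
  rw [mem_smul_set]
  refine ⟨(s / (1 + η)) • z' + ((1 + η)⁻¹ • k + (η * (1 + η)⁻¹) • (s • (η⁻¹ • (z - z')))),
    ⟨_, ?_, _, hk2, rfl⟩, ?_⟩
  · rw [segment_eq_image']
    refine ⟨s / (1 + η), ⟨div_nonneg hs.1 h1η.le, ?_⟩, by simp⟩
    rw [div_le_one h1η]; linarith [hs.2]
  · rw [smul_add, smul_add, smul_smul, smul_smul, smul_smul, smul_smul, smul_smul]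
    have e1 : (1 + η) * (s / (1 + η)) = s := by field_simp
    have e2 : (1 + η) * (1 + η)⁻¹ = 1 := by field_simp
    have e3 : (1 + η) * (η * (1 + η)⁻¹) * s * η⁻¹ = s := by field_simp
    simp only [e1, e2]
    rw [e3]
    module

lemma gr_lsc (hK : IsBody K) : LowerSemicontinuous (gr μ K) := by
  obtain ⟨ε, hε, h⟩ := seg_compare μ hK
  intro z t ht
  unfold gr at ht ⊢
  set V := μ.real (segment ℝ 0 z + K) with hV
  have hlim : Tendsto (fun η : ℝ => (1 + η) ^ (Module.finrank ℝ E) * (t + μ.real K)) (𝓝[>] 0)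
      (𝓝 ((1 + 0) ^ (Module.finrank ℝ E) * (t + μ.real K))) := by
    apply Tendsto.mono_left _ nhdsWithin_le_nhds
    apply Continuous.tendsto
    fun_prop
  have hlt : (1 + 0) ^ (Module.finrank ℝ E) * (t + μ.real K) < V := by
    simp only [add_zero, one_pow, one_mul]
    linarith
  have hev := (hlim.eventually_lt_const hlt).and self_mem_nhdsWithin
  obtain ⟨η, hη1, hη2⟩ := hev.exists
  have hη0 : (0 : ℝ) < η := hη2
  have hnhds : Metric.ball z (η * ε) ∈ 𝓝 z := Metric.ball_mem_nhds z (by positivity)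
  filter_upwards [hnhds] with z' hz'
  rw [Metric.mem_ball, dist_eq_norm, ← norm_neg, neg_sub] at hz'
  have h1 := h η hη0 z z' hz'
  have hpos : (0 : ℝ) < (1 + η) ^ (Module.finrank ℝ E) := by positivity
  have h2 : (1 + η) ^ (Module.finrank ℝ E) * (t + μ.real K) <
      (1 + η) ^ (Module.finrank ℝ E) * μ.real (segment ℝ 0 z' + K) := lt_of_lt_of_le hη1 h1
  have h3 := lt_of_mul_lt_mul_left h2 hpos.le
  linarith

/-- The volumes of the cylinders containing `K`. -/
def cylVols (μ : Measure E) (K : Set E) : Set ℝ :=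
  {r : ℝ | ∃ (A : Set E) (p q : E), IsCompact A ∧ Convex ℝ A ∧
    Module.finrank ℝ (vectorSpan ℝ A) = Module.finrank ℝ E - 1 ∧
    K ⊆ A + segment ℝ p q ∧ r = μ.real (A + segment ℝ p q)}

/-- Each direction has a circumscribed cylinder of volume `gr μ K e`. -/
lemma exists_cylinder (hK : IsBody K) {e : E} (he : N K e = 1) :
    ∃ (A : Set E) (p q : E), IsCompact A ∧ Convex ℝ A ∧
      Module.finrank ℝ (vectorSpan ℝ A) = Module.finrank ℝ E - 1 ∧
      K ⊆ A + segment ℝ p q ∧ μ.real (A + segment ℝ p q) = gr μ K e ∧ q - p = e := by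
  obtain ⟨ℓ, hℓ1, hℓ⟩ := hK.norming he
  have hcont : Continuous ℓ := ℓ.continuous_of_finiteDimensional
  obtain ⟨k, hk, hmin⟩ := hK.compact.exists_isMinOn hK.nonempty hcont.continuousOn
  have hm : ∀ x ∈ K, ℓ k ≤ ℓ x ∧ ℓ x ≤ ℓ k + 1 := by
    intro x hx
    refine ⟨hmin hx, ?_⟩
    have h1 := (hℓ (x - k)).trans (N_le_one hx hk)
    rw [map_sub] at h1
    linarith
  obtain ⟨h1, h2⟩ := cylinder μ hℓ1 hK.compact hK.convex hm
  refine ⟨_, _, _, isCompact_proj hK.compact e ℓ, convex_proj hK.convex e ℓ,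
    finrank_vectorSpan_proj hℓ1 hK.convex hK.int, h1, h2, ?_⟩
  rw [add_smul, one_smul]
  abel

lemma gr_mem_cylVols (hK : IsBody K) {e : E} (he : N K e = 1) : gr μ K e ∈ cylVols μ K := by
  obtain ⟨A, p, q, h1, h2, h3, h4, h5, _⟩ := exists_cylinder μ hK he
  exact ⟨A, p, q, h1, h2, h3, h4, h5.symm⟩

lemma bddBelow_cylVols : BddBelow (cylVols μ K) := by
  refine ⟨0, ?_⟩
  rintro r ⟨A, p, q, _, _, _, _, rfl⟩
  exact measureReal_nonneg

lemma le_of_mem_cylVols {r : ℝ} (hr : r ∈ cylVols μ K) : μ.real K ≤ r := by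
  obtain ⟨A, p, q, hA, _, _, hsub, rfl⟩ := hr
  exact real_mono μ (hA.add (isCompact_segment' p q)) hsub

/-- Data of a cylinder containing `K`. -/
lemma cyl_lower (hK : IsBody K) (hd : 0 < Module.finrank ℝ E) {A : Set E} {p q : E}
    (hA : IsCompact A) (hAc : Convex ℝ A)
    (hfin : Module.finrank ℝ (vectorSpan ℝ A) = Module.finrank ℝ E - 1)
    (hsub : K ⊆ A + segment ℝ p q) :
    gr μ K (q - p) ≤ μ.real (A + segment ℝ p q) ∧ 1 ≤ N K (q - p) := by
  obtain ⟨h1, ℓ, h2, h3⟩ := cylinder_lower μ hA hAc hK.compact hK.convex hK.int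
    (by omega : Module.finrank ℝ (vectorSpan ℝ A) < Module.finrank ℝ E) hsub
  refine ⟨h1, ?_⟩
  rw [← h2]
  exact hK.le_N h3 _

lemma gr_eq_smul (hK : IsBody K) {z : E} (hz : 0 < N K z) :
    N K ((N K z)⁻¹ • z) = 1 ∧ gr μ K z = N K z * gr μ K ((N K z)⁻¹ • z) := by
  constructor
  · rw [N_smul_nonneg (by positivity)]
    field_simp
  · rw [← gr_smul μ hK.compact hK.convex _ hz.le, smul_smul, mul_inv_cancel₀ hz.ne', one_smul]

/-- Existence of a minimal cylinder. -/
lemma exists_min (hK : IsBody K) (hd : 0 < Module.finrank ℝ E) :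
    ∃ e : E, N K e = 1 ∧ gr μ K e = sInf (cylVols μ K) := by
  have hnt : Nontrivial E := Module.nontrivial_of_finrank_pos hd
  obtain ⟨z, hz⟩ := exists_ne (0 : E)
  have hne : {e : E | N K e = 1}.Nonempty := ⟨_, (gr_eq_smul μ hK (hK.N_pos hz)).1⟩
  have hcomp : IsCompact {e : E | N K e = 1} := by
    have hsub : {e : E | N K e = 1} ⊆ K - K := by
      intro e he
      have h1 : e ∈ closure (K - K) :=
        (gauge_le_one_iff_mem_closure hK.sub_convex hK.sub_mem_nhds).1 (le_of_eq he)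
      rwa [hK.sub_compact.isClosed.closure_eq] at h1
    exact hK.sub_compact.of_isClosed_subset (isClosed_eq hK.N_continuous continuous_const) hsub
  obtain ⟨e, he, hmin⟩ := (gr_lsc μ hK).lowerSemicontinuousOn _ |>.exists_isMinOn hne hcomp
  refine ⟨e, he, le_antisymm ?_ (csInf_le (bddBelow_cylVols μ) (gr_mem_cylVols μ hK he))⟩
  apply le_csInf ⟨_, gr_mem_cylVols μ hK he⟩
  rintro r ⟨A, p, q, hA, hAc, hfin, hsub, rfl⟩
  obtain ⟨h1, h2⟩ := cyl_lower μ hK hd hA hAc hfin hsub
  have hpos : 0 < N K (q - p) := by linarith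
  obtain ⟨h3, h4⟩ := gr_eq_smul μ hK hpos
  refine le_trans ?_ h1
  rw [h4]
  have h5 : gr μ K e ≤ gr μ K ((N K (q - p))⁻¹ • (q - p)) := hmin h3
  have h6 := gr_nonneg μ hK ((N K (q - p))⁻¹ • (q - p))
  nlinarith

/-- The main theorem for a general finite dimensional space. -/
theorem main (hK : IsBody K) (hd : 0 < Module.finrank ℝ E) {n : ℕ} (hn : 1 ≤ n) (x : Fin n → E)
    (hx : ∀ i j : Fin n, i ≠ j → Disjoint (interior (x i +ᵥ K)) (interior (x j +ᵥ K)))
    {ϱ : ℝ} (h0 : 0 < ϱ) (h1 : ϱ < 1 / 4000) :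
    ((n : ℝ) - 1) * sInf (cylVols μ K) * ϱ ^ (Module.finrank ℝ E - 1) +
        μ.real K * ϱ ^ (Module.finrank ℝ E) ≤ μ.real (convexHull ℝ (range x) + ϱ • K) ∧
      (μ.real (convexHull ℝ (range x) + ϱ • K) =
          ((n : ℝ) - 1) * sInf (cylVols μ K) * ϱ ^ (Module.finrank ℝ E - 1) +
            μ.real K * ϱ ^ (Module.finrank ℝ E) ↔
        ∃ (A : Set E) (p q : E), IsCompact A ∧ Convex ℝ A ∧
          Module.finrank ℝ (vectorSpan ℝ A) = Module.finrank ℝ E - 1 ∧
          K ⊆ A + segment ℝ p q ∧ μ.real (A + segment ℝ p q) = sInf (cylVols μ K) ∧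
          ∃ b : E, convexHull ℝ (range x) = segment ℝ b (b + ((n : ℝ) - 1) • (q - p))) := by
  set d := Module.finrank ℝ E with hdd
  set Z := sInf (cylVols μ K) with hZdef
  have hZ : ∀ e, N K e = 1 → Z ≤ gr μ K e := fun e he =>
    csInf_le (bddBelow_cylVols μ) (gr_mem_cylVols μ hK he)
  obtain ⟨e₀, he₀, hge₀⟩ := exists_min μ hK hd
  have hKZ : μ.real K ≤ Z := by
    rw [hZdef, ← hge₀]
    exact le_of_mem_cylVols μ (gr_mem_cylVols μ hK he₀)
  have hK0 : 0 < μ.real K := by
    rw [measureReal_def]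
    apply ENNReal.toReal_pos _ hK.compact.measure_ne_top
    exact (Measure.measure_pos_of_nonempty_interior μ hK.int).ne'
  have hϱd : ϱ ^ d = ϱ ^ (d - 1) * ϱ := by
    rw [← pow_succ]
    congr 1
    omega
  have hϱd1 : 0 < ϱ ^ (d - 1) := by positivity
  have hnR : (1 : ℝ) ≤ n := by exact_mod_cast hn
  -- the converse direction of the equality statement
  have hconv : (∃ (A : Set E) (p q : E), IsCompact A ∧ Convex ℝ A ∧
          Module.finrank ℝ (vectorSpan ℝ A) = d - 1 ∧
          K ⊆ A + segment ℝ p q ∧ μ.real (A + segment ℝ p q) = Z ∧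
          ∃ b : E, convexHull ℝ (range x) = segment ℝ b (b + ((n : ℝ) - 1) • (q - p))) →
        μ.real (convexHull ℝ (range x) + ϱ • K) =
          ((n : ℝ) - 1) * Z * ϱ ^ (d - 1) + μ.real K * ϱ ^ d := by
    rintro ⟨A, p, q, hA, hAc, hfin, hsub, hvol, b, hb⟩
    obtain ⟨h2, h3⟩ := cyl_lower μ hK hd hA hAc hfin hsub
    have hpos : 0 < N K (q - p) := by linarith
    obtain ⟨h4, h5⟩ := gr_eq_smul μ hK hpos
    have h6 : gr μ K (q - p) = Z := by
      apply le_antisymm
      · rw [← hvol]; exact h2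
      · rw [h5]
        have h7 := hZ _ h4
        nlinarith
    have h8 : convexHull ℝ (range x) + ϱ • K =
        {b} + ϱ • (segment ℝ 0 ((((n : ℝ) - 1) / ϱ) • (q - p)) + K) := by
      rw [hb, smul_add, ← add_assoc]
      congr 1
      have h9 : ϱ • segment ℝ (0 : E) ((((n : ℝ) - 1) / ϱ) • (q - p)) =
          segment ℝ 0 (((n : ℝ) - 1) • (q - p)) := by
        have := image_segment ℝ (LinearMap.lsmul ℝ E ϱ).toAffineMap (0 : E)
          ((((n : ℝ) - 1) / ϱ) • (q - p))
        simp only [LinearMap.coe_toAffineMap, LinearMap.lsmul_apply, smul_zero, smul_smul] at this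
        rw [mul_div_cancel₀ _ h0.ne'] at this
        exact this
      rw [h9, singleton_add]
      ext z
      rw [segment_eq_image', segment_eq_image']
      simp only [mem_image, exists_exists_and_eq_and, add_sub_cancel_left, sub_zero, zero_add]
    rw [h8, real_singleton_add, real_smul μ h0.le, real_segment_add μ hK.compact hK.convex _
      (div_nonneg (by linarith) h0.le), h6, ← hdd, hϱd]
    field_simp
    ring
  rcases Nat.lt_or_ge n 2 with hn1 | hn2
  · -- a single translate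
    have hn' : n = 1 := by omega
    subst hn'
    have hrange : range x = {x 0} := by
      ext z
      simp [Fin.exists_fin_one, eq_comm]
    have hval : μ.real (convexHull ℝ (range x) + ϱ • K) = μ.real K * ϱ ^ d := by
      rw [hrange, convexHull_singleton, real_singleton_add, real_smul μ h0.le, mul_comm]
    constructor
    · rw [hval]; simp
    · constructor
      · intro _
        obtain ⟨A, p, q, h2, h3, h4, h5, h6, _⟩ := exists_cylinder μ hK he₀
        refine ⟨A, p, q, h2, h3, h4, h5, h6.trans hge₀, x 0, ?_⟩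
        rw [hrange, convexHull_singleton]
        simp
      · exact hconv
  · -- at least two translates
    set y : Fin n → E := fun i => ϱ⁻¹ • x i with hy
    have hL : (4000 : ℝ) ≤ ϱ⁻¹ := by
      rw [le_inv_comm₀ (by norm_num) h0]
      have : (4000 : ℝ)⁻¹ = 1 / 4000 := by norm_num
      rw [this]; exact h1.le
    have hsep : ∀ i j, i ≠ j → ϱ⁻¹ ≤ N K (y i - y j) := by
      intro i j hij
      have h2 := hK.one_le_N_of_disjoint (hx i j hij)
      have h3 : y i - y j = ϱ⁻¹ • (x i - x j) := by rw [hy, smul_sub]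
      rw [h3, N_smul_nonneg (by positivity)]
      have : 0 ≤ ϱ⁻¹ := by positivity
      nlinarith
    obtain ⟨h2, h3⟩ := scaled_main μ hK hL hZ hKZ hK0 y hsep (by simpa using hn2)
    rw [Fintype.card_fin] at h2 h3
    have hxy : range x = ϱ • range y := by
      ext z
      simp only [mem_range, mem_smul_set, exists_exists_eq_and, hy, smul_smul,
        mul_inv_cancel₀ h0.ne', one_smul]
    have hhull : convexHull ℝ (range x) = ϱ • convexHull ℝ (range y) := by
      rw [hxy, convexHull_smul]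
    have hval : μ.real (convexHull ℝ (range x) + ϱ • K) =
        ϱ ^ d * μ.real (convexHull ℝ (range y) + K) := by
      rw [hhull, ← smul_add, real_smul μ h0.le]
    have htarget : ((n : ℝ) - 1) * Z * ϱ ^ (d - 1) + μ.real K * ϱ ^ d =
        ϱ ^ d * (μ.real K + ((n : ℝ) - 1) * ϱ⁻¹ * Z) := by
      rw [hϱd]
      field_simp
      ring
    have hϱd0 : 0 < ϱ ^ d := by positivity
    constructor
    · rw [hval, htarget]
      exact mul_le_mul_of_nonneg_left h2 hϱd0.le
    · constructor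
      · intro heq
        rw [hval, htarget] at heq
        have h4 := mul_left_cancel₀ hϱd0.ne' heq
        obtain ⟨a, e, he, hge, hseg⟩ := h3 h4
        obtain ⟨A, p, q, h5, h6, h7, h8, h9, h10⟩ := exists_cylinder μ hK he
        refine ⟨A, p, q, h5, h6, h7, h8, h9.trans hge, ϱ • a, ?_⟩
        rw [hhull, hseg, h10]
        have := image_segment ℝ (LinearMap.lsmul ℝ E ϱ).toAffineMap a
          (a + (((n : ℝ) - 1) * ϱ⁻¹) • e)
        simp only [LinearMap.coe_toAffineMap, LinearMap.lsmul_apply, smul_add, smul_smul] at this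
        have h11 : ϱ * (((n : ℝ) - 1) * ϱ⁻¹) = (n : ℝ) - 1 := by field_simp
        rw [h11] at this
        exact this
      · exact hconv

end Pool.Agent.Lib.MP_c8b24c_co
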